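import Pool.Agent.TH566.BC.Kernel

/-!
# The kernel for the unmerged family and the density of the traces
-/

set_option autoImplicit false

open Set Cardinal Ordinal TopologicalSpace

namespace Pool.Agent.TH566.BC

universe u v w

/-- No unbounded family when the power set of `ω₁` is countably generated. -/
theorem iv_false {X : Type u} [MetricSpace X] {T : Type w} {L : W1 → Set (Set X)}
    {V : T → Set X} (h : Lev L) (hV : PF L V) (hunb : (Set.univ : Set T) ∉ bd L V)
    (C : ℕ → Set W1) (hC : ∀ A : Set W1, MeasurableSpace.GenerateMeasurable (range C) A) :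
    False := by
  obtain ⟨τ, hY, hbad⟩ := exists_merge hV hunb
  have hI := satIdeal_bd h hY (merged_proper hbad)
  have hcard : #(Set W1) ≤ #(ℕ → Bool) := by
    have h5 : #(range C) ≤ 𝔠 := by
      refine (mk_range_le).trans ?_
      simpa using aleph0_le_continuum
    have h6 := MeasurableSpace.cardinal_measurableSet_le_continuum h5
    have h7 : {t : Set W1 | @MeasurableSet W1 (MeasurableSpace.generateFrom (range C)) t} =
        Set.univ := eq_univ_of_forall hC
    rw [h7, mk_univ] at h6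
    simpa using h6
  obtain ⟨e⟩ := (Cardinal.le_def _ _).mp hcard
  obtain ⟨τ', hτ1, hτ2⟩ := exists_topology (Set W1) e e.injective
  obtain ⟨j, hj⟩ := lemC h hY hI C hC (fun i => {t | i ∈ t})
  exact hbad j (hj j)

section
variable {X T : Type u} [MetricSpace X] {L : W1 → Set (Set X)} {V : T → Set X}

/-- Sets of density below the additivity are tiny. -/
theorem tiny_of_density' (h : Lev L) (hV : PF L V) (hunb : (Set.univ : Set T) ∉ bd L V)
    {G D : Set X} (hGD : G ⊆ closure D) (hD : #D < addi (bd L V)) : Tiny (bd L V) V G := by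
  classical
  have hI := satIdeal_bd h hV hunb
  have hκ1 := hI.aleph_one_lt_addi
  have hκ0 : ℵ₀ < addi (bd L V) := aleph0_lt_aleph_one.trans hκ1
  by_contra hP
  have hXne : Nonempty X := by
    by_contra hX
    rw [not_nonempty_iff] at hX
    apply hP
    have : {t | (V t ∩ G).Nonempty} = ∅ := by
      rw [eq_empty_iff_forall_notMem]
      rintro t ⟨x, -⟩
      exact hX.false x
    unfold Tiny
    rw [this]
    exact hI.empty_mem
  let P : Set T := {t | (V t ∩ G).Nonempty}
  have hsel : ∀ t : T, ∃ x : X, t ∈ P → x ∈ V t ∩ G := by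
    intro t
    by_cases ht : t ∈ P
    · obtain ⟨x, hx⟩ := ht
      exact ⟨x, fun _ => hx⟩
    · exact ⟨Classical.arbitrary X, fun h => absurd h ht⟩
  choose x hx using hsel
  let E : D × ℕ → Set T := fun p => {t ∈ P | dist (x t) p.1 < 1 / ((p.2 : ℝ) + 1)}
  let N : Set T := ⋃ p : {p : D × ℕ // E p ∈ bd L V}, E p
  have hN : N ∈ bd L V := by
    refine (compl_addi (I := bd L V)).iUnion _ ?_ fun p => p.2
    have e1 : #{p : D × ℕ // E p ∈ bd L V} ≤ #D * ℵ₀ := by
      refine (mk_subtype_le _).trans_eq ?_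
      simp
    have e2 : #D * ℵ₀ < addi (bd L V) := mul_lt_of_lt hκ0.le hD hκ0
    simpa using e1.trans_lt e2
  let T1 : Set T := P \ N
  have hT1 : T1 ∉ bd L V := by
    intro hT1
    have : P ⊆ T1 ∪ N := by
      intro t h1
      by_cases h2 : t ∈ N
      · exact Or.inr h2
      · exact Or.inl ⟨h1, h2⟩
    exact hP (hI.down _ (hI.union hT1 hN) _ this)
  have hT1ne : T1.Nonempty := by
    rw [nonempty_iff_ne_empty]
    intro h0
    rw [h0] at hT1
    exact hT1 hI.empty_mem
  have hDne : Nonempty D := by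
    by_contra hDe
    rw [not_nonempty_iff] at hDe
    have hDe' : D = ∅ := by simpa using hDe
    obtain ⟨t, ht, -⟩ := hT1ne
    have := hGD (hx t ht).2
    rw [hDe'] at this
    simp at this
  have hZ : IsSeparable (x '' T1) := by
    by_contra hns
    obtain ⟨ε, hε, A, hAZ, hAc, hA⟩ := exists_separated hns
    apply hAc
    obtain ⟨n, hn⟩ := exists_nat_one_div_lt (show (0 : ℝ) < ε / 4 by positivity)
    have hr : (0 : ℝ) < 1 / ((n : ℝ) + 1) := by positivity
    have h4 : ∀ a : X, ∃ d : D, a ∈ A → (dist a d < 1 / ((n : ℝ) + 1)) ∧ E (d, n) ∉ bd L V := by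
      intro a
      by_cases ha : a ∈ A
      · obtain ⟨t, ht, hta⟩ := hAZ ha
        have hxt := (hx t ht.1).2
        obtain ⟨d, hd, hdist⟩ := Metric.mem_closure_iff.mp (hGD hxt) _ hr
        refine ⟨⟨d, hd⟩, fun _ => ⟨?_, ?_⟩⟩
        · rw [← hta]; exact hdist
        · intro hE
          apply ht.2
          exact mem_iUnion.mpr ⟨⟨(⟨d, hd⟩, n), hE⟩, ht.1, hdist⟩
      · exact ⟨Classical.arbitrary D, fun h => absurd h ha⟩
    choose d hd using h4
    refine hI.sat' A (fun a => E (d a, n)) ?_ fun a ha => (hd a ha).2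
    intro a ha b hb hab
    rw [disjoint_left]
    rintro t ⟨-, ht⟩ ⟨-, ht'⟩
    have h5 := hA a ha b hb hab
    have h6 := (hd a ha).1
    have h7 := (hd b hb).1
    have h8 : dist a b ≤ dist a (d a) + dist (d a : X) (x t) + dist (x t) (d b) +
        dist (d b : X) b := by
      have := dist_triangle4 a (d a : X) (x t) (d b : X)
      have h9 := dist_triangle a (d b : X) b
      linarith
    rw [dist_comm (d a : X) (x t), dist_comm (d b : X) b] at h8
    simp only at ht ht'
    linarith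
  have hsupp : ¬ (⋃ z ∈ x '' T1, {t | z ∈ V t}).Countable := by
    intro hc
    apply hT1
    refine hI.countable (hc.mono fun t ht => ?_)
    exact mem_biUnion (mem_image_of_mem x ht) (hx t ht.1).1
  obtain ⟨R, z, hz1, hz2, hz3⟩ := exists_disjoint_supports V hV.fin _ hsupp
  obtain ⟨C, hC⟩ := exists_generating h hV hZ R z hz1 hz2 hz3
  exact iv_false h hV hunb C hC

end

/-- large separated subsets. -/
theorem exists_separated_card {X : Type u} [MetricSpace X] {Z : Set X} {μ : Cardinal.{u}}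
    (hμ : ℵ₀ ≤ μ) (hZ : ∀ D : Set X, Z ⊆ closure D → μ < #D) :
    ∃ ε > 0, ∃ A ⊆ Z, μ < #A ∧ ∀ a ∈ A, ∀ b ∈ A, a ≠ b → ε ≤ dist a b := by
  by_contra hcon
  push Not at hcon
  have h1 : ∀ n : ℕ, ∃ M ⊆ Z, #M ≤ μ ∧ ∀ z ∈ Z, ∃ x ∈ M, dist x z < 1 / ((n : ℝ) + 1) := by
    intro n
    have hpos : (0 : ℝ) < 1 / ((n : ℝ) + 1) := by positivity
    obtain ⟨M, hMZ, hM1, hM2⟩ := exists_max_clique Z
      (fun x y => 1 / ((n : ℝ) + 1) ≤ dist x y)
    refine ⟨M, hMZ, ?_, ?_⟩
    · by_contra hc
      obtain ⟨a, ha, b, hb, hab, hlt⟩ := hcon _ hpos M hMZ (not_le.mp hc)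
      exact absurd (hM1 a ha b hb hab) (not_le.mpr hlt)
    · intro z hz
      by_contra hc
      push Not at hc
      have := hM2 z hz fun x hx hne => ⟨hc x hx, by rw [dist_comm]; exact hc x hx⟩
      exact absurd (hc z this) (by simpa using hpos)
  choose M hMZ hMc hM using h1
  have h2 : Z ⊆ closure (⋃ n, M n) := by
    intro z hz
    rw [Metric.mem_closure_iff]
    intro ε hε
    obtain ⟨n, hn⟩ := exists_nat_one_div_lt hε
    obtain ⟨x, hx, hd⟩ := hM n z hz
    exact ⟨x, mem_iUnion.mpr ⟨n, hx⟩, by rw [dist_comm]; exact hd.trans hn⟩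
  refine absurd (hZ _ h2) (not_lt.mpr ?_)
  have h3 := Cardinal.mk_iUnion_le_sum_mk_lift (f := M)
  have h4 : Cardinal.sum (fun n => #(M n)) ≤ Cardinal.lift.{u} ℵ₀ * μ := by
    refine (Cardinal.sum_le_sum _ _ fun n => hMc n).trans ?_
    simp
  have h5 : Cardinal.lift.{u} ℵ₀ * μ = μ := by
    rw [lift_aleph0]
    exact aleph0_mul_eq hμ
  rw [h5] at h4
  simpa using h3.trans h4

section
variable {T : Type u} {I : Set (Set T)}

/-- functions into a successor cardinal below the additivity are essentially bounded. -/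
theorem SatIdeal.press' (hI : SatIdeal I) {μ : Cardinal.{u}} (hμ : ℵ₀ ≤ μ)
    (hμI : Order.succ μ < addi I) (s : T → (Order.succ μ).ord.ToType) :
    ∃ δ, {t | δ < s t} ∈ I := by
  have h1 : {i | s ⁻¹' {i} ∉ I}.Countable := by
    refine hI.sat' _ (fun i => s ⁻¹' {i}) ?_ fun i hi => hi
    intro i _ j _ hij
    rw [disjoint_left]
    intro x hx hx'
    exact hij (hx.symm.trans hx')
  have hreg := isRegular_succ hμ
  have h2 : ¬ IsCofinal {i | s ⁻¹' {i} ∉ I} := by
    intro hc
    have h3 := Order.cof_le hc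
    rw [cof_toType, hreg.cof_ord] at h3
    have h4 : #{i | s ⁻¹' {i} ∉ I} ≤ ℵ₀ := Cardinal.le_aleph0_iff_set_countable.mpr h1
    exact absurd (h3.trans (h4.trans hμ)) (not_le.mpr (Order.lt_succ μ))
  rw [not_isCofinal_iff] at h2
  obtain ⟨δ, hδ⟩ := h2
  refine ⟨δ, ?_⟩
  have : {t | δ < s t} = ⋃ i : Ioi δ, s ⁻¹' {(i : (Order.succ μ).ord.ToType)} := by
    ext x; simp
  rw [this]
  refine (compl_addi (I := I)).iUnion _ ?_ ?_
  · have h2 : #(Ioi δ) ≤ Order.succ μ := (mk_set_le _).trans_eq (by rw [mk_toType, card_ord])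
    simpa using h2.trans_lt hμI
  · rintro ⟨i, hi⟩
    by_contra hc
    exact absurd (hδ i hc) (not_lt.mpr (le_of_lt hi))

end

section
variable {X T : Type u} [MetricSpace X] {L : W1 → Set (Set X)} {V : T → Set X}

/-- In an everywhere non-tiny set `H` the set of indices whose trace on a nonempty relatively
open part has density above `μ` is not in the ideal. -/
theorem trace_density (h : Lev L) (hV : PF L V) (hunb : (Set.univ : Set T) ∉ bd L V)
    {H : Set X} (hH : ∀ U : Set X, IsOpen U → (U ∩ H).Nonempty → ¬ Tiny (bd L V) V (U ∩ H))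
    {U : Set X} (hU : IsOpen U) (hne : (U ∩ H).Nonempty) {μ : Cardinal.{u}}
    (hμ : μ < addi (bd L V)) :
    {t | ∀ D : Set X, V t ∩ (U ∩ H) ⊆ closure D → μ < #D} ∉ bd L V := by
  classical
  have hI := satIdeal_bd h hV hunb
  obtain ⟨J, hJ, hJC⟩ := hI.exists_on_card
  have hlim := limit_of_ideal hJ hJC
  have hκ0 := aleph0_lt_of_ideal hJ
  -- we may enlarge `μ`
  suffices key : ∀ μ : Cardinal.{u}, ℵ₀ ≤ μ → μ < addi (bd L V) →
      {t | ∀ D : Set X, V t ∩ (U ∩ H) ⊆ closure D → μ < #D} ∉ bd L V by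
    intro hmem
    refine key (max μ ℵ₀) (le_max_right _ _) (max_lt hμ hκ0) (hI.down _ hmem _ ?_)
    intro t ht D hD
    exact (le_max_left _ _).trans_lt (ht D hD)
  clear hμ μ
  intro μ hμ0 hμ hmem
  have hWd : ∀ D : Set X, U ∩ H ⊆ closure D → μ < #D := by
    intro D hD
    by_contra hc
    exact hH U hU hne (tiny_of_density' h hV hunb hD ((not_lt.mp hc).trans_lt hμ))
  obtain ⟨ε, hε, A, hAW, hAμ, hA⟩ := exists_separated_card hμ0 hWd
  have h1 : #(Order.succ μ).ord.ToType ≤ #A := by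
    rw [mk_toType, card_ord]
    exact Order.succ_le_of_lt hAμ
  obtain ⟨w⟩ := (Cardinal.le_def _ _).mp h1
  have hdis : ∀ k l, k ≠ l → Disjoint (Metric.ball (w k : X) (ε / 2))
      (Metric.ball (w l : X) (ε / 2)) := by
    intro k l hkl
    apply Metric.ball_disjoint_ball
    have := hA _ (w k).2 _ (w l).2 (fun h => hkl (w.injective (Subtype.ext h)))
    linarith
  -- bounded sets of indices for the members with small trace
  have hs : ∀ t : T, ∃ s : (Order.succ μ).ord.ToType,
      (¬ ∀ D : Set X, V t ∩ (U ∩ H) ⊆ closure D → μ < #D) →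
      ∀ k, (V t ∩ (Metric.ball (w k : X) (ε / 2) ∩ (U ∩ H))).Nonempty → k < s := by
    intro t
    have hKne : Nonempty (Order.succ μ).ord.ToType := by
      rw [← mk_ne_zero_iff, mk_toType, card_ord]
      exact (Order.bot_lt_succ μ).ne'
    by_cases ht : ∀ D : Set X, V t ∩ (U ∩ H) ⊆ closure D → μ < #D
    · exact ⟨Classical.arbitrary _, fun h => absurd ht h⟩
    · push Not at ht
      obtain ⟨D, hD, hDμ⟩ := ht
      -- the relevant indices
      set B := {k | (V t ∩ (Metric.ball (w k : X) (ε / 2) ∩ (U ∩ H))).Nonempty} with hB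
      have hBcard : #B ≤ μ := by
        have h2 : ∀ k : B, ∃ d : D, (d : X) ∈ Metric.ball (w k : X) (ε / 2) := by
          rintro ⟨k, x, hxV, hxb, hxW⟩
          obtain ⟨d, hd1, hd2⟩ := mem_closure_iff.mp (hD ⟨hxV, hxW⟩) _ Metric.isOpen_ball hxb
          exact ⟨⟨d, hd2⟩, hd1⟩
        choose d hd using h2
        have hinj : Function.Injective d := by
          intro k l hkl
          by_contra hne'
          refine disjoint_left.mp (hdis k l fun h => hne' (Subtype.ext h)) (hd k) ?_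
          rw [hkl]
          exact hd l
        exact (mk_le_of_injective hinj).trans hDμ
      have h3 : ¬ IsCofinal B := by
        intro hc
        have h3 := Order.cof_le hc
        rw [cof_toType, (isRegular_succ hμ0).cof_ord] at h3
        exact absurd (h3.trans hBcard) (not_le.mpr (Order.lt_succ μ))
      rw [not_isCofinal_iff] at h3
      obtain ⟨s, hs⟩ := h3
      exact ⟨s, fun _ k hk => hs k hk⟩
  choose s hs using hs
  obtain ⟨δ, hδ⟩ := hI.press' hμ0 (hlim μ hμ) s
  -- an index beyond `δ`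
  have h4 : ∃ k, δ < k := by
    by_contra hc
    push Not at hc
    have h5 : IsCofinal {δ} := fun k => ⟨δ, rfl, hc k⟩
    have h6 := Order.cof_le h5
    rw [cof_toType, (isRegular_succ hμ0).cof_ord, mk_singleton] at h6
    exact absurd (h6.trans (one_le_aleph0.trans hμ0)) (not_le.mpr (Order.lt_succ μ))
  obtain ⟨k, hk⟩ := h4
  have h7 := hH (Metric.ball (w k : X) (ε / 2) ∩ U) (Metric.isOpen_ball.inter hU)
    ⟨w k, ⟨Metric.mem_ball_self (by positivity), (hAW (w k).2).1⟩, (hAW (w k).2).2⟩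
  apply h7
  refine hI.down _ (hI.union hmem hδ) _ ?_
  intro t ht
  by_cases htN : ∀ D : Set X, V t ∩ (U ∩ H) ⊆ closure D → μ < #D
  · exact Or.inl htN
  · right
    show δ < s t
    refine hk.trans (hs t htN k ?_)
    have ht' : (V t ∩ (Metric.ball (w k : X) (ε / 2) ∩ U ∩ H)).Nonempty := ht
    rwa [inter_assoc (Metric.ball (w k : X) (ε / 2)) U H] at ht'

/-- The positive theorem. -/
theorem main_positive (h : Lev L) (hV : PF L V)
    (hloc : ∀ x : X, ∃ U : Set X, IsOpen U ∧ x ∈ U ∧ ∃ μ : Cardinal.{u},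
      (∀ ν ≤ μ, ¬ (ℵ₀ < ν ∧ ν.IsRegular ∧ ∀ ρ < ν, Order.succ ρ < ν)) ∧
      #{t : T // ∀ D : Set X, V t ∩ U ⊆ closure D → μ < #D} ≤ μ) :
    (Set.univ : Set T) ∈ bd L V := by
  by_contra hunb
  have hI := satIdeal_bd h hV hunb
  obtain ⟨J, hJ, hJC⟩ := hI.exists_on_card
  obtain ⟨H, -, ⟨x, hx⟩, -, hH⟩ := exists_kernel h hI
  obtain ⟨U, hU, hxU, μ, hμ1, hμ2⟩ := hloc x
  have hμ : μ < addi (bd L V) := by
    by_contra hc
    exact hμ1 _ (not_lt.mp hc) ⟨aleph0_lt_of_ideal hJ, regular_of_ideal hJ hJC,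
      limit_of_ideal hJ hJC⟩
  refine trace_density h hV hunb hH hU ⟨x, hxU, hx⟩ hμ ?_
  refine compl_addi.small hI (lt_of_le_of_lt ?_ hμ)
  refine le_trans (mk_le_mk_of_subset ?_) hμ2
  intro t ht D hD
  exact ht D ((inter_subset_inter_right _ inter_subset_left).trans hD)

end

end Pool.Agent.TH566.BC
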