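import Pool.Agent.TH566.BC.Sep

/-!
# Merging, and sets of small density are tiny
-/

set_option autoImplicit false

open Set Cardinal Ordinal TopologicalSpace

namespace Pool.Agent.TH566.BC

universe u v w

/-- The merged family. -/
def mg {X : Type u} {T₀ : Type w} (V : T₀ → Set X) (τ : T₀ → Set W1) : Set W1 → Set X :=
  fun t => {x | ∃ a, τ a = t ∧ x ∈ V a}

theorem un_mg {X : Type u} {T₀ : Type w} (V : T₀ → Set X) (τ : T₀ → Set W1)
    (G : Set (Set W1)) : un (mg V τ) G = un V (τ ⁻¹' G) := by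
  ext x
  constructor
  · rintro ⟨t, ht, a, rfl, hx⟩
    exact ⟨a, ht, hx⟩
  · rintro ⟨a, ha, hx⟩
    exact ⟨τ a, ha, a, rfl, hx⟩

theorem exists_merge {X : Type u} [TopologicalSpace X] {T₀ : Type w} {L : W1 → Set (Set X)}
    {V : T₀ → Set X} (hV : PF L V) (hunb : (Set.univ : Set T₀) ∉ bd L V) :
    ∃ τ : T₀ → Set W1, PF L (mg V τ) ∧ ∀ i : W1, un (mg V τ) {t | i ∈ t} ∉ L i := by
  have h1 : ∀ i : W1, ∃ F : Set T₀, un V F ∉ L i := by
    intro i
    by_contra hc
    push Not at hc
    exact hunb ⟨i, fun F _ => hc F⟩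
  choose F hF using h1
  refine ⟨fun a => {i | a ∈ F i}, ⟨?_, ?_⟩, ?_⟩
  · intro x
    refine ((hV.fin x).image fun a => {i | a ∈ F i}).subset ?_
    rintro t ⟨a, rfl, hx⟩
    exact ⟨a, hx, rfl⟩
  · intro G
    rw [un_mg]
    exact hV.add _
  · intro i
    rw [un_mg]
    exact hF i

section
variable {X : Type u} [MetricSpace X] {L : W1 → Set (Set X)} {Y : Set W1 → Set X}

omit [MetricSpace X] in
theorem merged_proper (hbad : ∀ i : W1, un Y {t | i ∈ t} ∉ L i) :
    (Set.univ : Set (Set W1)) ∉ bd L Y := by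
  rintro ⟨i, hi⟩
  exact hbad i (hi _ (subset_univ _))

theorem null_of_empty (h : Lev L) {T : Type v} {Y : T → Set X} {G : Set T}
    (hG : ∀ t ∈ G, Y t = ∅) : G ∈ bd L Y := by
  refine ⟨Classical.arbitrary W1, fun G' hG' => ?_⟩
  have : un Y G' = ∅ := by
    rw [eq_empty_iff_forall_notMem]
    rintro x ⟨t, ht, hx⟩
    rw [hG t (hG' ht)] at hx
    exact hx
  rw [this]
  exact h.empty_mem _

/-- Sets of small density meet only an ideal set of members. -/
theorem tiny_of_density (h : Lev L) (hY : PF L Y) (hbad : ∀ i : W1, un Y {t | i ∈ t} ∉ L i)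
    {G D : Set X} (hGD : G ⊆ closure D)
    (hD : #D < Cardinal.lift.{u} (addi (bd L Y))) : {t | (Y t ∩ G).Nonempty} ∈ bd L Y := by
  classical
  have hI := satIdeal_bd h hY (merged_proper hbad)
  have hκ1 := hI.aleph_one_lt_addi
  have hκ0 : ℵ₀ < addi (bd L Y) := aleph0_lt_aleph_one.trans hκ1
  by_contra hP
  -- the selector
  have hXne : Nonempty X := by
    by_contra hX
    rw [not_nonempty_iff] at hX
    apply hP
    have : {t | (Y t ∩ G).Nonempty} = ∅ := by
      rw [eq_empty_iff_forall_notMem]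
      rintro t ⟨x, -⟩
      exact hX.false x
    rw [this]
    exact hI.empty_mem
  let P : Set (Set W1) := {t | (Y t ∩ G).Nonempty}
  have hsel : ∀ t : Set W1, ∃ x : X, t ∈ P → x ∈ Y t ∩ G := by
    intro t
    by_cases ht : t ∈ P
    · obtain ⟨x, hx⟩ := ht
      exact ⟨x, fun _ => hx⟩
    · exact ⟨Classical.arbitrary X, fun h => absurd h ht⟩
  choose x hx using hsel
  let E : D × ℕ → Set (Set W1) := fun p => {t ∈ P | dist (x t) p.1 < 1 / ((p.2 : ℝ) + 1)}
  let N : Set (Set W1) := ⋃ p : {p : D × ℕ // E p ∈ bd L Y}, E p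
  have hN : N ∈ bd L Y := by
    refine (compl_addi (I := bd L Y)).iUnion _ ?_ fun p => p.2
    have e1 : #{p : D × ℕ // E p ∈ bd L Y} ≤ #D * ℵ₀ := by
      refine (mk_subtype_le _).trans_eq ?_
      simp
    have e2 : #D * ℵ₀ < Cardinal.lift.{u} (addi (bd L Y)) := by
      refine mul_lt_of_lt ?_ hD ?_
      · simpa using hκ0.le
      · simpa using hκ0
    simpa using e1.trans_lt e2
  let T1 : Set (Set W1) := P \ N
  have hT1 : T1 ∉ bd L Y := by
    intro hT1
    have : P ⊆ T1 ∪ N := by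
      intro t h1
      by_cases h2 : t ∈ N
      · exact Or.inr h2
      · exact Or.inl ⟨h1, h2⟩
    exact hP (hI.down _ (hI.union hT1 hN) _ this)
  have hT1ne : T1.Nonempty := by
    rw [nonempty_iff_ne_empty]
    intro h0
    rw [h0] at hT1
    exact hT1 hI.empty_mem
  have hDne : Nonempty D := by
    by_contra hDe
    rw [not_nonempty_iff] at hDe
    have hDe' : D = ∅ := by simpa using hDe
    obtain ⟨t, ht, -⟩ := hT1ne
    have := hGD (hx t ht).2
    rw [hDe'] at this
    simp at this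
  have hZ : IsSeparable (x '' T1) := by
    by_contra hns
    obtain ⟨ε, hε, A, hAZ, hAc, hA⟩ := exists_separated hns
    apply hAc
    obtain ⟨n, hn⟩ := exists_nat_one_div_lt (show (0 : ℝ) < ε / 4 by positivity)
    have hr : (0 : ℝ) < 1 / ((n : ℝ) + 1) := by positivity
    have h4 : ∀ a : X, ∃ d : D, a ∈ A → (dist a d < 1 / ((n : ℝ) + 1)) ∧ E (d, n) ∉ bd L Y := by
      intro a
      by_cases ha : a ∈ A
      · obtain ⟨t, ht, hta⟩ := hAZ ha
        have hxt := (hx t ht.1).2
        obtain ⟨d, hd, hdist⟩ := Metric.mem_closure_iff.mp (hGD hxt) _ hr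
        refine ⟨⟨d, hd⟩, fun _ => ⟨?_, ?_⟩⟩
        · rw [← hta]; exact hdist
        · intro hE
          apply ht.2
          exact mem_iUnion.mpr ⟨⟨(⟨d, hd⟩, n), hE⟩, ht.1, hdist⟩
      · exact ⟨Classical.arbitrary D, fun h => absurd h ha⟩
    choose d hd using h4
    refine hI.sat' A (fun a => E (d a, n)) ?_ fun a ha => (hd a ha).2
    intro a ha b hb hab
    rw [disjoint_left]
    rintro t ⟨-, ht⟩ ⟨-, ht'⟩
    have h5 := hA a ha b hb hab
    have h6 := (hd a ha).1
    have h7 := (hd b hb).1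
    have h8 : dist a b ≤ dist a (d a) + dist (d a : X) (x t) + dist (x t) (d b) +
        dist (d b : X) b := by
      have := dist_triangle4 a (d a : X) (x t) (d b : X)
      have h9 := dist_triangle a (d b : X) b
      linarith
    rw [dist_comm (d a : X) (x t), dist_comm (d b : X) b] at h8
    simp only at ht ht'
    linarith
  have hsupp : ¬ (⋃ z ∈ x '' T1, {t | z ∈ Y t}).Countable := by
    intro hc
    apply hT1
    refine hI.countable (hc.mono fun t ht => ?_)
    exact mem_biUnion (mem_image_of_mem x ht) (hx t ht.1).1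
  obtain ⟨R, z, hz1, hz2, hz3⟩ := exists_disjoint_supports Y hY.fin _ hsupp
  obtain ⟨C, hC⟩ := exists_generating h hY hZ R z hz1 hz2 hz3
  -- a nice topology on the index set
  have hcard : #(Set W1) ≤ #(ℕ → Bool) := by
    have h5 : #(range C) ≤ 𝔠 := by
      refine (mk_range_le).trans ?_
      simpa using aleph0_le_continuum
    have h6 := MeasurableSpace.cardinal_measurableSet_le_continuum h5
    have h7 : {t : Set W1 | @MeasurableSet W1 (MeasurableSpace.generateFrom (range C)) t} =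
        Set.univ := eq_univ_of_forall hC
    rw [h7, mk_univ] at h6
    simpa using h6
  obtain ⟨e⟩ := (Cardinal.le_def _ _).mp hcard
  obtain ⟨τ', hτ1, hτ2⟩ := exists_topology (Set W1) e e.injective
  obtain ⟨j, hj⟩ := lemC h hY hI C hC (fun i => {t | i ∈ t})
  exact hbad j (hj j)

end

/-- number of members of the original family from the merged one. -/
theorem tiny_of_card {X : Type u} [MetricSpace X] {T₀ : Type w} {L : W1 → Set (Set X)}
    {V : T₀ → Set X} (h : Lev L) (τ : T₀ → Set W1) (hY : PF L (mg V τ))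
    (hbad : ∀ i : W1, un (mg V τ) {t | i ∈ t} ∉ L i) {G : Set X}
    (hG : #{a : T₀ // (V a ∩ G).Nonempty} < Cardinal.lift.{w} (addi (bd L (mg V τ)))) :
    {t | (mg V τ t ∩ G).Nonempty} ∈ bd L (mg V τ) := by
  have hI := satIdeal_bd h hY (merged_proper hbad)
  refine compl_addi.small hI ?_
  have h1 : {t | (mg V τ t ∩ G).Nonempty} ⊆
      range (fun a : {a : T₀ // (V a ∩ G).Nonempty} => τ a) := by
    rintro t ⟨x, ⟨a, rfl, hx⟩, hxG⟩
    exact ⟨⟨a, x, hx, hxG⟩, rfl⟩
  refine (mk_le_mk_of_subset h1).trans_lt ?_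
  rw [← Cardinal.lift_lt.{0, w}]
  refine lt_of_le_of_lt mk_range_le_lift ?_
  simpa using hG

/-- Theorem M. -/
theorem mainM {X : Type u} [MetricSpace X] {T₀ : Type w} {L : W1 → Set (Set X)}
    {V : T₀ → Set X} (h : Lev L) (hV : PF L V) (hunb : (Set.univ : Set T₀) ∉ bd L V) :
    ∃ κ : Cardinal.{0}, ℵ₁ < κ ∧ ∀ D : Set X, (∀ a, V a ⊆ closure D) →
      Cardinal.lift.{u} κ ≤ #D := by
  obtain ⟨τ, hY, hbad⟩ := exists_merge hV hunb
  have hI := satIdeal_bd h hY (merged_proper hbad)
  refine ⟨addi (bd L (mg V τ)), hI.aleph_one_lt_addi, fun D hD => ?_⟩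
  by_contra hcon
  push Not at hcon
  have h1 := tiny_of_density h hY hbad (Subset.refl (closure D)) hcon
  have h2 : {t | (mg V τ t ∩ closure D).Nonempty}ᶜ ∈ bd L (mg V τ) := by
    refine null_of_empty h fun t ht => ?_
    rw [eq_empty_iff_forall_notMem]
    rintro x ⟨a, rfl, hx⟩
    exact ht ⟨x, ⟨a, rfl, hx⟩, hD a hx⟩
  have := hI.union h1 h2
  rw [union_compl_self] at this
  exact hI.proper this

end Pool.Agent.TH566.BC
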