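import Pool.Agent.TH566.BC.Lev

/-!
# Point-finite additive families and the ideal of bounded sets of indices
-/

set_option autoImplicit false

open Set Cardinal Ordinal

namespace Pool.Agent.TH566.BC

universe u v w

/-- union of a subfamily. -/
def un {X : Type u} {T : Type v} (Y : T → Set X) (F : Set T) : Set X := {x | ∃ t ∈ F, x ∈ Y t}

section un
variable {X : Type u} {T : Type v} {Y : T → Set X}

theorem un_union (F G : Set T) : un Y (F ∪ G) = un Y F ∪ un Y G := by
  ext x; simp only [un, mem_ofPred_eq, mem_union]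
  constructor
  · rintro ⟨t, h | h, hx⟩
    · exact Or.inl ⟨t, h, hx⟩
    · exact Or.inr ⟨t, h, hx⟩
  · rintro (⟨t, h, hx⟩ | ⟨t, h, hx⟩)
    · exact ⟨t, Or.inl h, hx⟩
    · exact ⟨t, Or.inr h, hx⟩

theorem un_iUnion {ι : Sort*} (F : ι → Set T) : un Y (⋃ i, F i) = ⋃ i, un Y (F i) := by
  ext x; simp only [un, mem_ofPred_eq, mem_iUnion]
  constructor
  · rintro ⟨t, ⟨i, h⟩, hx⟩
    exact ⟨i, t, h, hx⟩
  · rintro ⟨i, t, h, hx⟩
    exact ⟨t, ⟨i, h⟩, hx⟩

theorem un_empty : un Y ∅ = ∅ := by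
  ext x; simp [un]

theorem un_mono {F G : Set T} (h : F ⊆ G) : un Y F ⊆ un Y G := by
  rintro x ⟨t, ht, hx⟩
  exact ⟨t, h ht, hx⟩

end un

/-- point-finite additive families. -/
structure PF {X : Type u} {T : Type v} (L : W1 → Set (Set X)) (Y : T → Set X) : Prop where
  fin : ∀ x, {t | x ∈ Y t}.Finite
  add : ∀ F : Set T, ∃ i, un Y F ∈ L i

/-- the ideal of sets of indices on which the family is bounded. -/
def bd {X : Type u} {T : Type v} (L : W1 → Set (Set X)) (Y : T → Set X) : Set (Set T) :=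
  {E | ∃ i, ∀ F ⊆ E, un Y F ∈ L i}

/-- the abstract ideals: proper, containing the singletons, `ω₁`-complete and `ω₁`-saturated. -/
structure SatIdeal {T : Type v} (I : Set (Set T)) : Prop where
  down : ∀ A ∈ I, ∀ B ⊆ A, B ∈ I
  iUnion : ∀ f : ℕ → Set T, (∀ n, f n ∈ I) → (⋃ n, f n) ∈ I
  proper : (Set.univ : Set T) ∉ I
  single : ∀ t, {t} ∈ I
  sat : ∀ E : W1 → Set T, (∀ i j, i ≠ j → Disjoint (E i) (E j)) → ∃ i, E i ∈ I

/-- completeness of an ideal. -/
def Compl {T : Type v} (κ : Cardinal.{v}) (I : Set (Set T)) : Prop :=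
  ∀ 𝒜 : Set (Set T), 𝒜 ⊆ I → #𝒜 < κ → ⋃₀ 𝒜 ∈ I

section
variable {X : Type u} {T : Type v} [TopologicalSpace X] {L : W1 → Set (Set X)} {Y : T → Set X}

/-- Lemma A: the members of a point-finite additive family indexed by a second countable
`T₁` space are of bounded level. -/
theorem lemA [TopologicalSpace T] [SecondCountableTopology T] [T1Space T] (h : Lev L)
    (hY : PF L Y) : ∃ i, ∀ t, Y t ∈ L i := by
  have hc := TopologicalSpace.countable_countableBasis T
  obtain ⟨i, hi⟩ := h.bdd hc (fun b => {un Y b}) fun b _ => by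
    obtain ⟨i, hi⟩ := hY.add b
    exact ⟨i, by simpa using hi⟩
  obtain ⟨j, hj⟩ := h.compl i
  obtain ⟨k, hk⟩ := h.compl j
  refine ⟨k, fun t => ?_⟩
  have key : Y t = (⋃ b ∈ {b ∈ TopologicalSpace.countableBasis T | t ∈ b}, (un Y b)ᶜ)ᶜ := by
    ext x
    simp only [compl_iUnion, compl_compl, mem_iInter]
    constructor
    · intro hx b hb
      exact ⟨t, hb.2, hx⟩
    · intro hx
      by_contra hxt
      have hfin : ({s | x ∈ Y s} : Set T).Finite := hY.fin x
      have hop : IsOpen ({s | x ∈ Y s}ᶜ : Set T) := hfin.isClosed.isOpen_compl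
      obtain ⟨b, hb, htb, hbs⟩ := (TopologicalSpace.isBasis_countableBasis T).exists_subset_of_mem_open
        (show t ∈ ({s | x ∈ Y s}ᶜ : Set T) from hxt) hop
      obtain ⟨s, hs, hxs⟩ := hx b ⟨hb, htb⟩
      exact hbs hs hxs
  rw [key]
  refine hk _ (h.biUnion (hc.mono (sep_subset _ _)) _ _ fun b hb => hj _ (hi b hb.1 rfl))

/-- a code gives a nice topology. -/
theorem exists_topology (T : Type v) (e : T → (ℕ → Bool)) (he : Function.Injective e) :
    ∃ _τ : TopologicalSpace T, SecondCountableTopology T ∧ T2Space T := by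
  let _τ : TopologicalSpace T := TopologicalSpace.induced e inferInstance
  refine ⟨inferInstance, ?_, ?_⟩
  · exact TopologicalSpace.secondCountableTopology_induced T (ℕ → Bool) e
  · exact T2Space.of_injective_continuous he continuous_induced_dom

theorem lemA_W1 (h : Lev L) {Z : W1 → Set X} (hZ : PF L Z) : ∃ i, ∀ t, Z t ∈ L i := by
  obtain ⟨e, he⟩ := W1.exists_code
  obtain ⟨τ, h1, h2⟩ := exists_topology W1 e he
  exact lemA h hZ

/-- the saturation argument. -/
theorem bd_sat (h : Lev L) (hY : PF L Y) (E : W1 → Set T)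
    (hE : ∀ i j, i ≠ j → Disjoint (E i) (E j)) : ∃ i, E i ∈ bd L Y := by
  by_contra hcon
  push Not at hcon
  have h1 : ∀ i, ∃ F ⊆ E i, un Y F ∉ L i := by
    intro i
    by_contra hc
    push Not at hc
    exact hcon i ⟨i, hc⟩
  choose F hF hF' using h1
  have hZ : PF L (fun i => un Y (F i)) := by
    constructor
    · intro x
      have : {i | x ∈ un Y (F i)} ⊆ ⋃ t ∈ {t | x ∈ Y t}, {i | t ∈ E i} := by
        rintro i ⟨t, ht, hx⟩
        exact mem_biUnion (show t ∈ {t | x ∈ Y t} from hx) (hF i ht)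
      refine ((hY.fin x).biUnion fun t _ => ?_).subset this
      refine Set.Subsingleton.finite ?_
      intro i hi j hj
      by_contra hij
      exact disjoint_left.mp (hE i j hij) hi hj
    · intro G
      obtain ⟨i, hi⟩ := hY.add (⋃ j ∈ G, F j)
      refine ⟨i, ?_⟩
      have : un (fun i => un Y (F i)) G = un Y (⋃ j ∈ G, F j) := by
        rw [un_iUnion]
        simp_rw [un_iUnion]
        ext x; simp [un]
      rwa [this]
  obtain ⟨i, hi⟩ := lemA_W1 h hZ
  exact hF' i (hi i)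

omit [TopologicalSpace X] in
theorem bd_down {A B : Set T} (hA : A ∈ bd L Y) (hB : B ⊆ A) : B ∈ bd L Y := by
  obtain ⟨i, hi⟩ := hA
  exact ⟨i, fun F hF => hi F (hF.trans hB)⟩

theorem bd_single (h : Lev L) (hY : PF L Y) (t : T) : {t} ∈ bd L Y := by
  obtain ⟨i, hi⟩ := hY.add {t}
  refine ⟨i, fun F hF => ?_⟩
  rcases subset_singleton_iff_eq.mp hF with rfl | rfl
  · rw [un_empty]; exact h.empty_mem i
  · exact hi

theorem bd_iUnion (h : Lev L) (f : ℕ → Set T) (hf : ∀ n, f n ∈ bd L Y) :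
    (⋃ n, f n) ∈ bd L Y := by
  obtain ⟨i, hi⟩ := h.bdd' (fun n => (un Y) '' (𝒫 (f n))) fun n => by
    obtain ⟨i, hi⟩ := hf n
    refine ⟨i, ?_⟩
    rintro _ ⟨F, hF, rfl⟩
    exact hi F hF
  refine ⟨i, fun F hF => ?_⟩
  have : F = ⋃ n, (F ∩ f n) := by
    rw [← inter_iUnion]
    exact (inter_eq_left.mpr hF).symm
  rw [this, un_iUnion]
  exact h.iUnion i _ fun n => hi n ⟨_, inter_subset_right, rfl⟩

theorem satIdeal_bd (h : Lev L) (hY : PF L Y) (hu : (Set.univ : Set T) ∉ bd L Y) : SatIdeal (bd L Y) where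
  down := fun _ hA _ hB => bd_down hA hB
  iUnion := bd_iUnion h
  proper := hu
  single := bd_single h hY
  sat := bd_sat h hY

end

end Pool.Agent.TH566.BC
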