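import Pool.Agent.TH566.BC.Kernel

/-!
# Translation to families of sets
-/

set_option autoImplicit false

open Set Cardinal Ordinal TopologicalSpace

namespace Pool.Agent.TH566.BC

universe u

section
variable {X : Type u} [MetricSpace X] {𝒳 : Set (Set X)} {S : Ordinal.{0} → Set (Set X)}

theorem one_lt_omega1 : (1 : Ordinal.{0}) < ω₁ := one_lt_omega0.trans omega0_lt_omega_one

theorem un_subtype {P : Set X → Prop} (F : Set {A : Set X // P A}) :
    un (fun A : {A : Set X // P A} => A.1) F = ⋃₀ (Subtype.val '' F) := by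
  ext x
  simp [un]

/-- the family as an indexed family. -/
theorem pf_subtype {L : W1 → Set (Set X)} (hL : Lev L)
    (hfin : ∀ x : X, {A : Set X | A ∈ 𝒳 ∧ x ∈ A}.Finite)
    (hborel : ∀ 𝒴 ⊆ 𝒳, @MeasurableSet X (borel X) (⋃₀ 𝒴)) :
    PF L (fun A : {A : Set X // A ∈ 𝒳} => A.1) := by
  constructor
  · intro x
    refine Set.Finite.of_finite_image (f := Subtype.val) ?_ Subtype.val_injective.injOn
    refine (hfin x).subset ?_
    rintro _ ⟨A, hA, rfl⟩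
    exact ⟨A.2, hA⟩
  · intro F
    rw [un_subtype]
    refine hL.of_borel (hborel _ ?_)
    rintro _ ⟨A, -, rfl⟩
    exact A.2

theorem sUnion_eq_un {𝒴 : Set (Set X)} (h : 𝒴 ⊆ 𝒳) :
    ⋃₀ 𝒴 = un (fun A : {A : Set X // A ∈ 𝒳} => A.1) (Subtype.val ⁻¹' 𝒴) := by
  rw [un_subtype]
  congr 1
  ext A
  constructor
  · intro hA
    exact ⟨⟨A, h hA⟩, hA, rfl⟩
  · rintro ⟨B, hB, rfl⟩
    exact hB

/-- boundedness in terms of the given hierarchy. -/
theorem bounded_of_univ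
    (hb : (Set.univ : Set {A : Set X // A ∈ 𝒳}) ∈ bd (fun i : W1 => S (max 1 i.o))
      (fun A : {A : Set X // A ∈ 𝒳} => A.1)) :
    ∃ α : Ordinal.{0}, 1 ≤ α ∧ α < (Cardinal.aleph 1).ord ∧ ∀ 𝒴 ⊆ 𝒳, ⋃₀ 𝒴 ∈ S α := by
  obtain ⟨i, hi⟩ := hb
  refine ⟨max 1 i.o, le_max_left _ _, ?_, fun 𝒴 h𝒴 => ?_⟩
  · rw [show (Cardinal.aleph 1).ord = (ω₁ : Ordinal.{0}) by simp]
    exact max_lt one_lt_omega1 i.o_lt
  · rw [sUnion_eq_un h𝒴]
    exact hi _ (subset_univ _)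

end

end Pool.Agent.TH566.BC
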