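import Pool.Agent.TH566.BC.Dens

/-!
# Gluing and families of separable sets
-/

set_option autoImplicit false

open Set Cardinal Ordinal TopologicalSpace

namespace Pool.Agent.TH566.BC

universe u v w

/-- gluing along disjoint open families. -/
theorem glue {X : Type u} [TopologicalSpace X] {L : W1 → Set (Set X)} (h : Lev L) (i : W1) :
    ∃ j, ∀ (Λ : Type w) (G A : Λ → Set X), (∀ l, IsOpen (G l)) →
      (∀ l m, l ≠ m → Disjoint (G l) (G m)) → (∀ l, A l ∈ L i) → (⋃ l, (A l ∩ G l)) ∈ L j := by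
  classical
  induction i using WellFoundedLT.induction with
  | ind i ih =>
  choose! j' hj' using ih
  obtain ⟨δ, hδ⟩ := W1.bdd ((W1.countable_Iio i).image j')
  have hδ' : ∀ i' < i, j' i' ≤ δ := fun i' hi' => (hδ _ (mem_image_of_mem _ hi')).le
  obtain ⟨k, hk⟩ := h.diff δ
  refine ⟨k, fun Λ G A hG hd hA => ?_⟩
  have h1 : ∀ l, ∃ f : ℕ → Set X, ¬ IsOpen (A l) →
      (A l = ⋃ n, f n) ∧ ∀ n, ∃ j < i, (f n)ᶜ ∈ L j := by
    intro l
    rcases h.step i (A l) (hA l) with h1 | ⟨f, h1, h2⟩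
    · exact ⟨fun _ => ∅, fun h3 => absurd h1 h3⟩
    · exact ⟨f, fun _ => ⟨h1, h2⟩⟩
  choose f hf using h1
  let B : W1 → ℕ → Λ → Set X := fun i' n l =>
    if (¬ IsOpen (A l)) ∧ (f l n)ᶜ ∈ L i' then (f l n)ᶜ else ∅
  have hB : ∀ i' n l, B i' n l ∈ L i' := by
    intro i' n l
    simp only [B]
    split_ifs with h1
    · exact h1.2
    · exact h.empty_mem _
  have key : (⋃ l, (A l ∩ G l)) = (⋃ l ∈ {l | IsOpen (A l)}, (A l ∩ G l)) ∪
      ⋃ n : ℕ, ((⋃ l ∈ {l | ¬ IsOpen (A l)}, G l) \ ⋃ i' : Iio i, ⋃ l, (B i' n l ∩ G l)) := by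
    ext x
    simp only [mem_iUnion, mem_union, mem_inter_iff, mem_sdiff, mem_ofPred_eq, exists_prop,
      not_exists, not_and]
    constructor
    · rintro ⟨l, hxA, hxG⟩
      by_cases ho : IsOpen (A l)
      · exact Or.inl ⟨l, ho, hxA, hxG⟩
      · right
        obtain ⟨h1, h2⟩ := hf l ho
        have hx1 := hxA
        rw [h1] at hx1
        obtain ⟨n, hn⟩ := mem_iUnion.mp hx1
        refine ⟨n, ⟨l, ho, hxG⟩, ?_⟩
        intro i' m hxB hxm
        have hml : m = l := by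
          by_contra hne
          exact disjoint_left.mp (hd m l hne) hxm hxG
        subst hml
        simp only [B] at hxB
        split_ifs at hxB with h3
        · exact hxB hn
        · exact hxB
    · rintro (⟨l, -, h2⟩ | ⟨n, ⟨l, ho, hxG⟩, hn⟩)
      · exact ⟨l, h2⟩
      · obtain ⟨h1, h2⟩ := hf l ho
        obtain ⟨i', hi', h3⟩ := h2 n
        refine ⟨l, ?_, hxG⟩
        by_contra hxA
        have hxf : x ∉ f l n := by
          intro hx
          apply hxA
          rw [h1]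
          exact mem_iUnion.mpr ⟨n, hx⟩
        refine hn ⟨i', hi'⟩ l ?_ hxG
        simp only [B]
        rw [if_pos ⟨ho, h3⟩]
        exact hxf
  rw [key]
  have hc : Countable (Iio i) := (W1.countable_Iio i).to_subtype
  refine h.union (h.open_mem _ _ ?_) (h.iUnion _ _ fun n => hk _ (h.open_mem _ _ ?_) _ ?_)
  · refine isOpen_iUnion fun l => isOpen_iUnion fun hl => ?_
    exact IsOpen.inter hl (hG l)
  · exact isOpen_iUnion fun l => isOpen_iUnion fun _ => hG l
  · refine h.iUnion' _ _ fun i' => ?_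
    exact h.mono _ _ (hδ' i' i'.2) (hj' i' i'.2 Λ G (B i' n) hG hd (hB i' n))

/-- a set on which the family is bounded. -/
def Small {X : Type u} {T : Type v} (L : W1 → Set (Set X)) (V : T → Set X) (G : Set X) : Prop :=
  ∃ i, ∀ F : Set T, un V F ∩ G ∈ L i

section
variable {X : Type u} {T : Type v} [TopologicalSpace X] {L : W1 → Set (Set X)} {V : T → Set X}

/-- Lemma G. -/
theorem lemG (h : Lev L) (hI : SatIdeal (bd L V)) (G : W1 → Set X) (hG : ∀ i, IsOpen (G i))
    (hc : ∀ t, {i | (V t ∩ G i).Nonempty}.Countable) :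
    ∃ δ β : W1, ∀ i, δ < i → ∀ F : Set T, un V F ∩ G i ∈ L β := by
  have h1 : ∀ t, ∃ s : W1, ∀ i ∈ {i | (V t ∩ G i).Nonempty}, i < s := fun t => W1.bdd (hc t)
  choose s hs using h1
  obtain ⟨δ, hδ⟩ := hI.press s
  obtain ⟨iN, hiN⟩ := hδ
  obtain ⟨β, hβ⟩ := h.inter iN
  refine ⟨δ, β, fun i hi F => ?_⟩
  have : un V F ∩ G i = un V (F ∩ {t | δ < s t}) ∩ G i := by
    ext x
    constructor
    · rintro ⟨⟨t, ht, hx⟩, hxG⟩
      exact ⟨⟨t, ⟨ht, hi.trans (hs t i ⟨x, hx, hxG⟩)⟩, hx⟩, hxG⟩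
    · rintro ⟨⟨t, ht, hx⟩, hxG⟩
      exact ⟨⟨t, ht.1, hx⟩, hxG⟩
  rw [this]
  exact hβ _ (hiN _ inter_subset_right) _ (h.open_mem _ _ (hG i))

theorem Small.mono_open (h : Lev L) {G G' : Set X} (hG : Small L V G) (hG' : IsOpen G')
    (hsub : G' ⊆ G) : Small L V G' := by
  obtain ⟨i, hi⟩ := hG
  obtain ⟨j, hj⟩ := h.inter i
  refine ⟨j, fun F => ?_⟩
  have : un V F ∩ G' = (un V F ∩ G) ∩ G' := by
    rw [inter_assoc, inter_eq_right.mpr hsub]
  rw [this]
  exact hj _ (hi F) _ (h.open_mem _ _ hG')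

theorem Small.iUnion (h : Lev L) (G : ℕ → Set X) (hG : ∀ n, Small L V (G n)) :
    Small L V (⋃ n, G n) := by
  obtain ⟨i, hi⟩ := h.bdd' (fun n => {A | ∃ F : Set T, A = un V F ∩ G n}) fun n => by
    obtain ⟨i, hi⟩ := hG n
    refine ⟨i, ?_⟩
    rintro _ ⟨F, rfl⟩
    exact hi F
  refine ⟨i, fun F => ?_⟩
  rw [inter_iUnion]
  exact h.iUnion _ _ fun n => hi n ⟨F, rfl⟩

theorem countable_meet {s : Set X} (hs : IsSeparable s) {Λ : Type w} (G : Λ → Set X)
    (hG : ∀ l, IsOpen (G l)) (hd : ∀ l m, l ≠ m → Disjoint (G l) (G m)) :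
    {l | (s ∩ G l).Nonempty}.Countable := by
  obtain ⟨c, hc, hsc⟩ := hs
  rcases isEmpty_or_nonempty X with hX | hX
  · have : {l | (s ∩ G l).Nonempty} = ∅ := by
      rw [eq_empty_iff_forall_notMem]
      rintro l ⟨x, -⟩
      exact hX.false x
    rw [this]
    exact countable_empty
  have h1 : ∀ l, ∃ q : X, (s ∩ G l).Nonempty → q ∈ c ∧ q ∈ G l := by
    intro l
    by_cases hl : (s ∩ G l).Nonempty
    · obtain ⟨x, hx, hxG⟩ := hl
      obtain ⟨q, hq1, hq2⟩ := mem_closure_iff.mp (hsc hx) _ (hG l) hxG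
      exact ⟨q, fun _ => ⟨hq2, hq1⟩⟩
    · exact ⟨hX.some, fun h => absurd h hl⟩
  choose q hq using h1
  refine MapsTo.countable_of_injOn (f := q) (t := c) (fun l hl => (hq l hl).1) ?_ hc
  intro l hl m hm hlm
  by_contra hne
  exact disjoint_left.mp (hd l m hne) (hq l hl).2 (hlm ▸ (hq m hm).2)

/-- gluing of small sets. -/
theorem Small.glue (h : Lev L) (hI : SatIdeal (bd L V)) (hsep : ∀ t, IsSeparable (V t))
    {Λ : Type w} (G : Λ → Set X) (hG : ∀ l, IsOpen (G l))
    (hd : ∀ l m, l ≠ m → Disjoint (G l) (G m)) (hs : ∀ l, Small L V (G l)) :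
    Small L V (⋃ l, G l) := by
  by_cases hb : ∃ i, ∀ l, ∀ F : Set T, un V F ∩ G l ∈ L i
  · obtain ⟨i, hi⟩ := hb
    obtain ⟨j, hj⟩ := BC.glue.{u, w} h i
    refine ⟨j, fun F => ?_⟩
    have : un V F ∩ ⋃ l, G l = ⋃ l, ((un V F ∩ G l) ∩ G l) := by
      rw [inter_iUnion]
      simp only [inter_assoc, inter_self]
    rw [this]
    exact hj Λ G _ hG hd fun l => hi l F
  · exfalso
    push Not at hb
    choose l F hlF using hb
    choose b hb using hs
    obtain ⟨δ, β, hδ⟩ := lemG h hI (fun i => G (l i)) (fun i => hG _) (by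
      intro t
      have h1 := countable_meet (hsep t) G hG hd
      have h2 : {i | (V t ∩ G (l i)).Nonempty} ⊆
          ⋃ m ∈ {m | (V t ∩ G m).Nonempty}, {i | l i = m} := by
        intro i hi
        exact mem_biUnion (show l i ∈ {m | (V t ∩ G m).Nonempty} from hi) rfl
      refine (h1.biUnion fun m _ => ?_).mono h2
      refine (W1.countable_Iio (b m)).mono ?_
      rintro i rfl
      by_contra hc
      rw [mem_Iio, not_lt] at hc
      exact hlF i (h.mono _ _ hc (hb (l i) (F i))))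
    obtain ⟨γ, hγ⟩ := W1.bdd (A := {δ, β}) (by simp)
    have h1 := hδ γ (hγ δ (by simp)) (F γ)
    exact hlF γ (h.mono _ _ (hγ β (by simp)).le h1)

end

/-- the union of all small open sets is small. -/
theorem small_sUnion {X : Type u} {T : Type v} [MetricSpace X] {L : W1 → Set (Set X)}
    {V : T → Set X} (h : Lev L) (hI : SatIdeal (bd L V)) (hsep : ∀ t, IsSeparable (V t)) :
    Small L V (⋃₀ {U | IsOpen U ∧ Small L V U}) := by
  let Λ := {U : Set X // IsOpen U ∧ Small L V U}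
  let r : Λ → Λ → Prop := WellOrderingRel
  have hwf : WellFounded r := (inferInstance : IsWellOrder Λ WellOrderingRel).wf
  let M : ℕ → Λ → Set X := fun m U => {x | x ∈ U.1 ∧ (∀ U' : Λ, x ∈ U'.1 → ¬ r U' U) ∧
    Metric.ball x (1 / ((m : ℝ) + 1)) ⊆ U.1}
  let G : ℕ → Λ → Set X := fun m U => ⋃ x ∈ M m U, Metric.ball x (1 / (3 * ((m : ℝ) + 1)))
  have hG : ∀ m U, IsOpen (G m U) := fun m U =>
    isOpen_iUnion fun x => isOpen_iUnion fun _ => Metric.isOpen_ball
  have hGsub : ∀ m U, G m U ⊆ U.1 := by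
    intro m U
    refine iUnion₂_subset fun x hx => ?_
    refine (Metric.ball_subset_ball ?_).trans hx.2.2
    apply one_div_le_one_div_of_le (by positivity)
    have : (0 : ℝ) < (m : ℝ) + 1 := by positivity
    linarith
  have hdis : ∀ m, ∀ U U' : Λ, r U U' → Disjoint (G m U) (G m U') := by
    intro m U U' hr
    rw [disjoint_left]
    intro y hy hy'
    simp only [G, mem_iUnion, exists_prop] at hy hy'
    obtain ⟨x, hx, hyx⟩ := hy
    obtain ⟨x', hx', hyx'⟩ := hy'
    rw [Metric.mem_ball] at hyx hyx'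
    have hpos : (0 : ℝ) < (m : ℝ) + 1 := by positivity
    have h2 : dist x' x < 1 / ((m : ℝ) + 1) := by
      have h3 : dist x' x ≤ dist x' y + dist y x := dist_triangle _ _ _
      rw [dist_comm x' y] at h3
      have h4 : 1 / (3 * ((m : ℝ) + 1)) + 1 / (3 * ((m : ℝ) + 1)) ≤ 1 / ((m : ℝ) + 1) := by
        rw [← add_div, div_le_div_iff₀ (by positivity) hpos]
        nlinarith
      linarith
    exact hx'.2.1 U (hx.2.2 h2) hr
  have hO : ⋃₀ {U | IsOpen U ∧ Small L V U} = ⋃ m : ℕ, ⋃ U : Λ, G m U := by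
    apply Subset.antisymm
    · rintro x ⟨U0, hU0, hxU0⟩
      obtain ⟨U, hU, hmin⟩ := hwf.has_min {U : Λ | x ∈ U.1} ⟨⟨U0, hU0⟩, hxU0⟩
      obtain ⟨ε, hε, hball⟩ := Metric.isOpen_iff.mp U.2.1 x hU
      obtain ⟨m, hm⟩ := exists_nat_one_div_lt hε
      refine mem_iUnion.mpr ⟨m, mem_iUnion.mpr ⟨U, ?_⟩⟩
      refine mem_biUnion (x := x) ⟨hU, fun U' hU' => hmin U' hU',
        (Metric.ball_subset_ball hm.le).trans hball⟩ ?_
      exact Metric.mem_ball_self (by positivity)
    · refine iUnion_subset fun m => iUnion_subset fun U => ?_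
      exact (hGsub m U).trans (subset_sUnion_of_mem U.2)
  rw [hO]
  refine Small.iUnion h _ fun m => ?_
  refine Small.glue h hI hsep (G m) (hG m) ?_ fun U => U.2.2.mono_open h (hG m U) (hGsub m U)
  intro U U' hne
  rcases trichotomous_of WellOrderingRel U U' with h1 | h1 | h1
  · exact hdis m U U' h1
  · exact absurd h1 hne
  · exact (hdis m U' U h1).symm

/-- Theorem S: point-finite additive families of separable sets are bounded. -/
theorem mainS {X : Type u} {T : Type v} [MetricSpace X] {L : W1 → Set (Set X)}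
    {V : T → Set X} (h : Lev L) (hV : PF L V) (hsep : ∀ t, IsSeparable (V t)) :
    (Set.univ : Set T) ∈ bd L V := by
  by_contra hunb
  have hI := satIdeal_bd h hV hunb
  set O : Set X := ⋃₀ {U | IsOpen U ∧ Small L V U} with hO
  have hOo : IsOpen O := isOpen_sUnion fun U hU => hU.1
  have hOs : Small L V O := small_sUnion h hI hsep
  -- the complement is separable
  have hHsep : IsSeparable Oᶜ := by
    by_contra hns
    obtain ⟨ε, hε, A, hAO, hAc, hA⟩ := exists_separated hns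
    obtain ⟨a, hainj, haA⟩ := W1.exists_inj hAc
    have hd : ∀ i j, i ≠ j → Disjoint (Metric.ball (a i) (ε / 2)) (Metric.ball (a j) (ε / 2)) := by
      intro i j hij
      apply Metric.ball_disjoint_ball
      have := hA _ (haA i) _ (haA j) (hainj.ne hij)
      linarith
    obtain ⟨δ, β, hδ⟩ := lemG h hI (fun i => Metric.ball (a i) (ε / 2))
      (fun i => Metric.isOpen_ball) (fun t => countable_meet (hsep t) _
        (fun i => Metric.isOpen_ball) hd)
    obtain ⟨γ, hγ⟩ := W1.bdd (countable_singleton δ)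
    have h1 : Small L V (Metric.ball (a γ) (ε / 2)) := ⟨β, hδ γ (hγ δ rfl)⟩
    refine hAO (haA γ) ?_
    exact ⟨_, ⟨Metric.isOpen_ball, h1⟩, Metric.mem_ball_self (by positivity)⟩
  -- restrict to the complement
  have hun : ∀ F : Set T, un (fun t => V t ∩ Oᶜ) F = un V F ∩ Oᶜ := by
    intro F
    ext x
    constructor
    · rintro ⟨t, ht, hx⟩
      exact ⟨⟨t, ht, hx.1⟩, hx.2⟩
    · rintro ⟨⟨t, ht, hx⟩, hxO⟩
      exact ⟨t, ht, hx, hxO⟩
  obtain ⟨iO, hiO⟩ : ∃ i, Oᶜ ∈ L i := by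
    obtain ⟨j, hj⟩ := h.compl (Classical.arbitrary W1)
    exact ⟨j, hj _ (h.open_mem _ _ hOo)⟩
  have hV' : PF L (fun t => V t ∩ Oᶜ) := by
    constructor
    · intro x
      exact (hV.fin x).subset fun t ht => ht.1
    · intro F
      rw [hun]
      obtain ⟨i, hi⟩ := hV.add F
      obtain ⟨j, hj⟩ := h.inter (max i iO)
      exact ⟨j, hj _ (h.mono _ _ (le_max_left _ _) hi) _ (h.mono _ _ (le_max_right _ _) hiO)⟩
  have hunb' : (Set.univ : Set T) ∉ bd L (fun t => V t ∩ Oᶜ) := by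
    rintro ⟨i, hi⟩
    obtain ⟨j, hj⟩ := hOs
    apply hunb
    refine ⟨max i j, fun F _ => ?_⟩
    have : un V F = (un V F ∩ O) ∪ un (fun t => V t ∩ Oᶜ) F := by
      rw [hun, ← inter_union_distrib_left, union_compl_self, inter_univ]
    rw [this]
    exact h.union (h.mono _ _ (le_max_right _ _) (hj F))
      (h.mono _ _ (le_max_left _ _) (hi F (subset_univ _)))
  obtain ⟨κ, hκ, hD⟩ := mainM h hV' hunb'
  obtain ⟨c, hc, hHc⟩ := hHsep
  have h1 := hD c fun t => inter_subset_right.trans hHc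
  have h2 : #c ≤ ℵ₀ := Cardinal.le_aleph0_iff_set_countable.mpr hc
  have h3 : Cardinal.lift.{u} κ ≤ ℵ₀ := h1.trans h2
  rw [lift_le_aleph0] at h3
  exact absurd (aleph0_lt_aleph_one.trans hκ) (not_lt.mpr h3)

end Pool.Agent.TH566.BC
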