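import Pool.Agent.TH566.BC.Fam

/-!
# Additivity of `ω₁`-saturated ideals (Ulam, Tarski)
-/

set_option autoImplicit false

open Set Cardinal Ordinal

namespace Pool.Agent.TH566.BC

universe u v w

section
variable {T : Type v} {I : Set (Set T)}

theorem SatIdeal.empty_mem (hI : SatIdeal I) : (∅ : Set T) ∈ I := by
  obtain ⟨i, hi⟩ := hI.sat (fun _ => ∅) (by simp)
  exact hi

theorem SatIdeal.countable (hI : SatIdeal I) {A : Set T} (hA : A.Countable) : A ∈ I := by
  rcases A.eq_empty_or_nonempty with rfl | hne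
  · exact hI.empty_mem
  · obtain ⟨f, hf⟩ := hA.exists_eq_range hne
    rw [hf]
    have : range f = ⋃ n, {f n} := by
      ext x; simp [eq_comm]
    rw [this]
    exact hI.iUnion _ fun n => hI.single _

theorem SatIdeal.union (hI : SatIdeal I) {A B : Set T} (hA : A ∈ I) (hB : B ∈ I) :
    A ∪ B ∈ I := by
  have : A ∪ B = ⋃ n : ℕ, (if n = 0 then A else B) := by
    ext x
    simp only [mem_union, mem_iUnion]
    constructor
    · rintro (h | h)
      · exact ⟨0, by simpa using h⟩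
      · exact ⟨1, by simpa using h⟩
    · rintro ⟨n, h⟩
      by_cases hn : n = 0
      · left; simpa [hn] using h
      · right; simpa [hn] using h
  rw [this]
  refine hI.iUnion _ fun n => ?_
  by_cases hn : n = 0
  · simpa [hn] using hA
  · simpa [hn] using hB

theorem SatIdeal.sat' (hI : SatIdeal I) {ι : Type*} (B : Set ι) (E : ι → Set T)
    (hE : ∀ i ∈ B, ∀ j ∈ B, i ≠ j → Disjoint (E i) (E j)) (hp : ∀ i ∈ B, E i ∉ I) :
    B.Countable := by
  by_contra hB
  obtain ⟨f, hf, hfB⟩ := W1.exists_inj hB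
  obtain ⟨i, hi⟩ := hI.sat (fun i => E (f i)) fun i j hij => hE _ (hfB i) _ (hfB j) (hf.ne hij)
  exact hp _ (hfB i) hi

/-- additivity of an ideal. -/
noncomputable def addi (I : Set (Set T)) : Cardinal.{v} :=
  sInf {c | ∃ 𝒜 ⊆ I, #𝒜 = c ∧ ⋃₀ 𝒜 ∉ I}

theorem SatIdeal.addi_spec (hI : SatIdeal I) : ∃ 𝒜 ⊆ I, #𝒜 = addi I ∧ ⋃₀ 𝒜 ∉ I := by
  refine csInf_mem (s := {c | ∃ 𝒜 ⊆ I, #𝒜 = c ∧ ⋃₀ 𝒜 ∉ I}) ?_
  refine ⟨_, range (fun t : T => ({t} : Set T)), ?_, rfl, ?_⟩
  · rintro _ ⟨t, rfl⟩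
    exact hI.single t
  · have : ⋃₀ range (fun t : T => ({t} : Set T)) = Set.univ := by
      ext x; simp
    rw [this]
    exact hI.proper

theorem compl_addi : Compl (addi I) I := by
  intro 𝒜 h1 h2
  by_contra h3
  exact notMem_of_lt_csInf' h2 ⟨𝒜, h1, rfl, h3⟩

theorem Compl.iUnion {κ : Cardinal.{v}} (h : Compl κ I) {ι : Type w} (f : ι → Set T)
    (hι : lift.{v} #ι < lift.{w} κ) (hf : ∀ i, f i ∈ I) : (⋃ i, f i) ∈ I := by
  rw [← sUnion_range]
  refine h _ ?_ ?_
  · rintro _ ⟨i, rfl⟩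
    exact hf i
  · exact Cardinal.lift_lt.mp (mk_range_le_lift.trans_lt hι)

theorem Compl.small {κ : Cardinal.{v}} (hI : SatIdeal I) (h : Compl κ I) {A : Set T}
    (hA : #A < κ) : A ∈ I := by
  have : A = ⋃ a : A, {(a : T)} := by
    ext x; simp
  rw [this]
  exact h.iUnion _ (by simpa using hA) fun i => hI.single _

/-- Disjointification along a well-order. -/
def dj {K : Type w} [LinearOrder K] (E : K → Set T) (k : K) : Set T := E k \ ⋃ j ∈ Iio k, E j

theorem dj_subset {K : Type w} [LinearOrder K] (E : K → Set T) (k : K) : dj E k ⊆ E k :=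
  sdiff_subset

theorem iUnion_dj {K : Type w} [LinearOrder K] [WellFoundedLT K] (E : K → Set T) :
    (⋃ k, dj E k) = ⋃ k, E k := by
  ext x
  simp only [mem_iUnion]
  constructor
  · rintro ⟨k, hk⟩
    exact ⟨k, dj_subset E k hk⟩
  · rintro ⟨k, hk⟩
    obtain ⟨m, hm, hmin⟩ := (wellFounded_lt (α := K)).has_min {k | x ∈ E k} ⟨k, hk⟩
    refine ⟨m, hm, ?_⟩
    simp only [mem_iUnion, mem_Iio, not_exists]
    intro j hj hx
    exact hmin j hx hj

theorem dj_disjoint {K : Type w} [LinearOrder K] (E : K → Set T) (i j : K) (hij : i ≠ j) :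
    Disjoint (dj E i) (dj E j) := by
  wlog h : i < j generalizing i j
  · exact (this j i hij.symm (lt_of_le_of_ne (not_lt.mp h) hij.symm)).symm
  · rw [disjoint_left]
    intro x hx hx'
    exact hx'.2 (mem_biUnion (show i ∈ Iio j from h) hx.1)

/-- push forward of the ideal. -/
theorem SatIdeal.push (hI : SatIdeal I) {K : Type w}
    (E : K → Set T) (hE : ∀ k, E k ∈ I) (hd : ∀ i j, i ≠ j → Disjoint (E i) (E j))
    (hu : (⋃ k, E k) ∉ I) : SatIdeal {A : Set K | (⋃ k ∈ A, E k) ∈ I} where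
  down := by
    intro A hA B hB
    exact hI.down _ hA _ (biUnion_subset_biUnion_left hB)
  iUnion := by
    intro f hf
    simp only [mem_ofPred_eq, mem_iUnion] at hf ⊢
    have : (⋃ k, ⋃ (_ : ∃ i, k ∈ f i), E k) = ⋃ i, ⋃ k ∈ f i, E k := by
      ext x
      simp only [mem_iUnion]
      constructor
      · rintro ⟨k, ⟨i, hi⟩, hx⟩; exact ⟨i, k, hi, hx⟩
      · rintro ⟨i, k, hi, hx⟩; exact ⟨k, ⟨i, hi⟩, hx⟩
    rw [this]
    exact hI.iUnion _ hf
  proper := by
    simpa using hu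
  single := by
    intro t
    simpa using hE t
  sat := by
    intro A hA
    refine hI.sat (fun i => ⋃ k ∈ A i, E k) fun i j hij => ?_
    rw [disjoint_left]
    intro x hx hx'
    simp only [mem_iUnion] at hx hx'
    obtain ⟨k, hk, hxk⟩ := hx
    obtain ⟨l, hl, hxl⟩ := hx'
    have hkl : k ≠ l := by
      rintro rfl
      exact disjoint_left.mp (hA i j hij) hk hl
    exact disjoint_left.mp (hd k l hkl) hxk hxl

/-- an ideal on the cardinal `addi I`. -/
theorem SatIdeal.exists_on_card (hI : SatIdeal I) :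
    ∃ J : Set (Set (addi I).ord.ToType), SatIdeal J ∧ Compl (addi I) J := by
  obtain ⟨𝒜, h1, h2, h3⟩ := hI.addi_spec
  have h4 : #(addi I).ord.ToType = #𝒜 := by
    rw [mk_toType, card_ord, h2]
  obtain ⟨g⟩ := Cardinal.eq.mp h4
  set E : (addi I).ord.ToType → Set T := fun k => (g k : Set T) with hE
  have hEI : ∀ k, E k ∈ I := fun k => h1 (g k).2
  have hEu : (⋃ k, E k) = ⋃₀ 𝒜 := by
    rw [sUnion_eq_iUnion]
    exact g.surjective.iUnion_comp (fun a : 𝒜 => (a : Set T))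
  have hdI : ∀ k, dj E k ∈ I := fun k => hI.down _ (hEI k) _ (dj_subset E k)
  refine ⟨{A | (⋃ k ∈ A, dj E k) ∈ I}, ?_, ?_⟩
  · refine hI.push (dj E) hdI (dj_disjoint E) ?_
    rw [iUnion_dj, hEu]
    exact h3
  · intro ℬ hℬ hc
    have : (⋃ k ∈ ⋃₀ ℬ, dj E k) = ⋃₀ ((fun A => ⋃ k ∈ A, dj E k) '' ℬ) := by
      ext x
      simp only [mem_iUnion, mem_sUnion, mem_image, exists_exists_and_eq_and]
      constructor
      · rintro ⟨k, ⟨B, hB, hk⟩, hx⟩
        exact ⟨B, hB, k, hk, hx⟩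
      · rintro ⟨B, hB, k, hk, hx⟩
        exact ⟨k, ⟨B, hB, hk⟩, hx⟩
    show (⋃ k ∈ ⋃₀ ℬ, dj E k) ∈ I
    rw [this]
    refine compl_addi _ ?_ (mk_image_le.trans_lt hc)
    rintro _ ⟨A, hA, rfl⟩
    exact hℬ hA

end

section
variable {κ : Cardinal.{v}} {J : Set (Set κ.ord.ToType)}

theorem aleph0_lt_of_ideal (hJ : SatIdeal J) : ℵ₀ < κ := by
  by_contra h
  push Not at h
  have : Countable κ.ord.ToType := by
    rw [← mk_le_aleph0_iff, mk_toType, card_ord]
    exact h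
  exact hJ.proper (hJ.countable (countable_univ_iff.mpr this))

theorem Iic_mem (hJ : SatIdeal J) (hC : Compl κ J) (k : κ.ord.ToType) : Iic k ∈ J := by
  rw [← Iio_insert, insert_eq]
  refine hJ.union (hJ.single k) (hC.small hJ ?_)
  have := mk_Iio_lt k (by simp)
  simpa using this

theorem regular_of_ideal (hJ : SatIdeal J) (hC : Compl κ J) : κ.IsRegular := by
  refine ⟨(aleph0_lt_of_ideal hJ).le, ?_⟩
  rw [← cof_toType]
  obtain ⟨s, hs, hs'⟩ := Order.exists_cof_eq κ.ord.ToType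
  rw [← hs']
  by_contra hlt
  push Not at hlt
  apply hJ.proper
  have : (Set.univ : Set κ.ord.ToType) = ⋃ k : s, Iic (k : κ.ord.ToType) := by
    symm
    rw [eq_univ_iff_forall]
    intro x
    obtain ⟨y, hy, hxy⟩ := hs x
    exact mem_iUnion.mpr ⟨⟨y, hy⟩, hxy⟩
  rw [this]
  exact hC.iUnion _ (by simpa using hlt) fun i => Iic_mem hJ hC _

theorem limit_of_ideal (hJ : SatIdeal J) (hC : Compl κ J) : ∀ μ < κ, Order.succ μ < κ := by
  intro μ hμ
  by_contra hcon
  push Not at hcon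
  have h0 := aleph0_lt_of_ideal hJ
  -- injections of the initial segments into `μ`
  have h1 : ∀ ξ : κ.ord.ToType, ∃ e : Iio ξ → μ.out, Function.Injective e := by
    intro ξ
    have h2 : #(Iio ξ) < κ := by simpa using mk_Iio_lt ξ (by simp)
    have h3 : #(Iio ξ) ≤ #μ.out := by
      rw [mk_out]
      exact Order.lt_succ_iff.mp (h2.trans_le hcon)
    obtain ⟨e⟩ := (Cardinal.le_def _ _).mp h3
    exact ⟨e, e.injective⟩
  choose e he using h1
  let A : μ.out → κ.ord.ToType → Set κ.ord.ToType :=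
    fun η ζ => {ξ | ∃ h : ζ < ξ, e ξ ⟨ζ, h⟩ = η}
  have hA : ∀ ζ, ∃ η, A η ζ ∉ J := by
    intro ζ
    by_contra hc
    push Not at hc
    apply hJ.proper
    have : (Set.univ : Set κ.ord.ToType) = Iic ζ ∪ ⋃ η, A η ζ := by
      symm
      rw [eq_univ_iff_forall]
      intro ξ
      rcases le_or_gt ξ ζ with h | h
      · exact Or.inl h
      · exact Or.inr (mem_iUnion.mpr ⟨e ξ ⟨ζ, h⟩, h, rfl⟩)
    rw [this]
    exact hJ.union (Iic_mem hJ hC ζ) (hC.iUnion _ (by simpa using hμ) hc)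
  choose η hη using hA
  have hfib : ∀ m : μ.out, (η ⁻¹' {m}).Countable := by
    intro m
    refine hJ.sat' (η ⁻¹' {m}) (fun ζ => A m ζ) ?_ ?_
    · intro ζ hζ ζ' hζ' hne
      rw [disjoint_left]
      rintro ξ ⟨h1, h2⟩ ⟨h3, h4⟩
      have := he ξ (h2.trans h4.symm)
      exact hne (congrArg Subtype.val this)
    · intro ζ hζ
      have := hη ζ
      rwa [show η ζ = m from hζ] at this
  have hcard : κ ≤ μ * ℵ₀ := by
    have h5 : (Set.univ : Set κ.ord.ToType) = ⋃ m : μ.out, η ⁻¹' {m} := by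
      ext x; simp
    calc κ = #(Set.univ : Set κ.ord.ToType) := by simp
      _ = #(⋃ m : μ.out, η ⁻¹' {m} : Set κ.ord.ToType) := by rw [← h5]
      _ ≤ Cardinal.sum fun m : μ.out => #(η ⁻¹' {m} : Set κ.ord.ToType) := mk_iUnion_le_sum_mk
      _ ≤ Cardinal.sum fun _ : μ.out => ℵ₀ :=
          Cardinal.sum_le_sum _ _ fun m => (Cardinal.le_aleph0_iff_set_countable).mpr (hfib m)
      _ = μ * ℵ₀ := by simp
  have : μ * ℵ₀ < κ := by
    rcases le_or_gt μ ℵ₀ with h | h
    · exact (mul_le_mul_left h _).trans_lt (by simpa using h0)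
    · rw [mul_eq_max_of_aleph0_le_left h.le aleph0_ne_zero]
      exact max_lt hμ h0
  exact absurd hcard (not_le.mpr this)

end

section
variable {T : Type v} {I : Set (Set T)}

theorem SatIdeal.aleph_one_lt_addi (hI : SatIdeal I) : ℵ₁ < addi I := by
  obtain ⟨J, hJ, hC⟩ := hI.exists_on_card
  have := limit_of_ideal hJ hC ℵ₀ (aleph0_lt_of_ideal hJ)
  simpa using this

/-- Lemma P: functions to `ω₁` are essentially bounded. -/
theorem SatIdeal.press (hI : SatIdeal I) (s : T → W1) : ∃ δ : W1, {t | δ < s t} ∈ I := by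
  have h1 : {i : W1 | s ⁻¹' {i} ∉ I}.Countable := by
    refine hI.sat' _ (fun i => s ⁻¹' {i}) ?_ fun i hi => hi
    intro i _ j _ hij
    rw [disjoint_left]
    intro x hx hx'
    exact hij (hx.symm.trans hx')
  obtain ⟨δ, hδ⟩ := W1.bdd h1
  refine ⟨δ, ?_⟩
  have : {t | δ < s t} = ⋃ i : Ioi δ, s ⁻¹' {(i : W1)} := by
    ext x; simp
  rw [this]
  refine (compl_addi (I := I)).iUnion _ ?_ ?_
  · have h2 : #(Ioi δ) ≤ ℵ₁ := (mk_set_le _).trans_eq W1.mk
    calc lift.{v} #(Ioi δ) ≤ lift.{v} ℵ₁ := lift_le.mpr h2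
      _ = lift.{0} (ℵ₁ : Cardinal.{v}) := by simp
      _ < lift.{0} (addi I) := lift_lt.mpr hI.aleph_one_lt_addi
  · rintro ⟨i, hi⟩
    by_contra hc
    exact absurd (hδ i hc) (not_lt.mpr (le_of_lt hi))

end

/-- On the power set of `ω₁` the additivity is at most the continuum. -/
theorem addi_le_continuum {I : Set (Set (Set W1))} (hI : SatIdeal I) : addi I ≤ 𝔠 := by
  by_contra hcon
  push Not at hcon
  let C : W1 → Set W1 → Set (Set W1) := fun i t => {s | ∀ j < i, (j ∈ s ↔ j ∈ t)}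
  let 𝒩 : Set (Set (Set W1)) := {A | A ∈ I ∧ ∃ i t, A = C i t}
  have h𝒩 : #𝒩 ≤ 𝔠 := by
    have h1 : 𝒩 ⊆ range (fun p : (Σ i : W1, Set (Iio i)) => C p.1 (Subtype.val '' p.2)) := by
      rintro A ⟨-, i, t, rfl⟩
      refine ⟨⟨i, Subtype.val ⁻¹' t⟩, ?_⟩
      ext s
      simp only [C, mem_ofPred_eq]
      refine forall₂_congr fun j hj => ?_
      simp [hj]
    refine (mk_le_mk_of_subset h1).trans (mk_range_le.trans ?_)
    rw [mk_sigma]
    calc (Cardinal.sum fun i : W1 => #(Set (Iio i))) ≤ Cardinal.sum fun _ : W1 => 𝔠 := by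
          refine Cardinal.sum_le_sum _ _ fun i => ?_
          rw [mk_set, ← two_power_aleph0]
          exact Cardinal.power_le_power_left two_ne_zero
            (Cardinal.le_aleph0_iff_set_countable.mpr (W1.countable_Iio i))
      _ = ℵ₁ * 𝔠 := by simp
      _ ≤ 𝔠 := by
          rw [mul_eq_max_of_aleph0_le_left aleph0_lt_aleph_one.le continuum_ne_zero]
          exact max_le aleph_one_le_continuum le_rfl
  have h2 : ⋃₀ 𝒩 ∈ I := compl_addi _ (fun A hA => hA.1) (h𝒩.trans_lt hcon)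
  obtain ⟨t, ht⟩ : ∃ t, t ∉ ⋃₀ 𝒩 := by
    by_contra hc
    push Not at hc
    exact hI.proper (by rwa [eq_univ_of_forall hc] at h2)
  have hC : ∀ i, C i t ∉ I := by
    intro i hi
    exact ht ⟨C i t, ⟨hi, i, t, rfl⟩, fun j _ => Iff.rfl⟩
  -- the first difference
  have hd : ∀ s : Set W1, ∃ d : W1, s ≠ t → (¬ (d ∈ s ↔ d ∈ t)) ∧ True := by
    intro s
    by_cases h : s = t
    · exact ⟨Classical.arbitrary W1, fun h' => absurd h h'⟩
    · have : ∃ d, ¬ (d ∈ s ↔ d ∈ t) := by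
        by_contra hc
        push Not at hc
        exact h (Set.ext hc)
      obtain ⟨d, hd⟩ := this
      exact ⟨d, fun _ => ⟨hd, trivial⟩⟩
  choose d hd using hd
  obtain ⟨δ, hδ⟩ := hI.press d
  obtain ⟨δ', hδ'⟩ := W1.bdd (countable_singleton δ)
  have h3 : C (max δ' δ) t ⊆ {s | δ < d s} ∪ {t} := by
    intro s hs
    by_cases h : s = t
    · exact Or.inr h
    · left
      show δ < d s
      by_contra hc
      push Not at hc
      refine (hd s h).1 (hs (d s) ?_)
      exact hc.trans_lt ((hδ' δ rfl).trans_le (le_max_left _ _))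
  exact hC _ (hI.down _ (hI.union hδ (hI.single t)) _ h3)

end Pool.Agent.TH566.BC
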