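import Pool.Agent.TH566.BC.Glue

/-!
# The kernel
-/

set_option autoImplicit false

open Set Cardinal Ordinal TopologicalSpace

namespace Pool.Agent.TH566.BC

universe u v w

/-- sets meeting only an ideal set of members. -/
def Tiny {X : Type u} {T : Type v} (I : Set (Set T)) (Y : T → Set X) (G : Set X) : Prop :=
  {t | (Y t ∩ G).Nonempty} ∈ I

theorem Tiny.mono {X : Type u} {T : Type v} {I : Set (Set T)} (hI : SatIdeal I)
    {Y : T → Set X} {G G' : Set X} (h : Tiny I Y G) (hs : G' ⊆ G) : Tiny I Y G' := by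
  refine hI.down _ h _ fun t ht => ?_
  exact ht.mono (inter_subset_inter_right _ hs)

/-- separated families of closed tiny sets. -/
def Good {X : Type u} [MetricSpace X] {T : Type v} (I : Set (Set T)) (Y : T → Set X)
    (𝒬 : Set (Set X)) : Prop :=
  (∀ Q ∈ 𝒬, IsClosed Q ∧ Tiny I Y Q) ∧
    ∃ ε > 0, ∀ Q ∈ 𝒬, ∀ Q' ∈ 𝒬, Q ≠ Q' → ∀ x ∈ Q, ∀ y ∈ Q', ε ≤ dist x y

/-- sets covered by countably many good families. -/
def STiny {X : Type u} [MetricSpace X] {T : Type v} (I : Set (Set T)) (Y : T → Set X)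
    (W : Set X) : Prop :=
  ∃ 𝒬 : ℕ → Set (Set X), (∀ n, Good I Y (𝒬 n)) ∧ W ⊆ ⋃ n, ⋃₀ 𝒬 n

section
variable {X : Type u} [MetricSpace X] {T : Type v} {L : W1 → Set (Set X)} {Y : T → Set X}
  {I : Set (Set T)}

theorem good_empty : Good I Y (∅ : Set (Set X)) :=
  ⟨fun _ hQ => absurd hQ (notMem_empty _), 1, one_pos, fun _ hQ => absurd hQ (notMem_empty _)⟩

theorem STiny.of_countable {ι : Type*} [Countable ι] (𝒬 : ι → Set (Set X))
    (hg : ∀ i, Good I Y (𝒬 i)) {W : Set X} (hW : W ⊆ ⋃ i, ⋃₀ 𝒬 i) : STiny I Y W := by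
  rcases isEmpty_or_nonempty ι with hι | hι
  · refine ⟨fun _ => ∅, fun _ => good_empty, ?_⟩
    refine hW.trans ?_
    simp
  · obtain ⟨g, hg'⟩ := exists_surjective_nat ι
    refine ⟨fun n => 𝒬 (g n), fun n => hg _, ?_⟩
    rw [hg'.iUnion_comp (fun i => ⋃₀ 𝒬 i)]
    exact hW

theorem STiny.mono {W W' : Set X} (h : STiny I Y W) (hs : W' ⊆ W) : STiny I Y W' := by
  obtain ⟨𝒬, h1, h2⟩ := h
  exact ⟨𝒬, h1, hs.trans h2⟩

theorem STiny.iUnion (W : ℕ → Set X) (h : ∀ n, STiny I Y (W n)) : STiny I Y (⋃ n, W n) := by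
  choose 𝒬 h1 h2 using h
  refine STiny.of_countable (fun p : ℕ × ℕ => 𝒬 p.1 p.2) (fun p => h1 _ _) ?_
  refine iUnion_subset fun n => (h2 n).trans ?_
  exact iUnion_subset fun m => subset_iUnion (fun p : ℕ × ℕ => ⋃₀ 𝒬 p.1 p.2) (n, m)

theorem STiny.union {W W' : Set X} (h : STiny I Y W) (h' : STiny I Y W') :
    STiny I Y (W ∪ W') := by
  obtain ⟨𝒬, h1, h2⟩ := h
  obtain ⟨𝒬', h1', h2'⟩ := h'
  refine STiny.of_countable (fun p : Bool × ℕ => cond p.1 (𝒬 p.2) (𝒬' p.2)) ?_ ?_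
  · rintro ⟨b, n⟩
    cases b
    · exact h1' n
    · exact h1 n
  · rintro x (hx | hx)
    · obtain ⟨n, hn⟩ := mem_iUnion.mp (h2 hx)
      exact mem_iUnion.mpr ⟨(true, n), hn⟩
    · obtain ⟨n, hn⟩ := mem_iUnion.mp (h2' hx)
      exact mem_iUnion.mpr ⟨(false, n), hn⟩

theorem STiny.of_closed {Q : Set X} (hQ : IsClosed Q) (ht : Tiny I Y Q) : STiny I Y Q := by
  refine ⟨fun _ => {Q}, fun _ => ⟨?_, 1, one_pos, ?_⟩, ?_⟩
  · rintro _ rfl
    exact ⟨hQ, ht⟩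
  · rintro _ rfl _ rfl hne
    exact absurd rfl hne
  · intro x hx
    exact mem_iUnion.mpr ⟨0, by simpa using hx⟩

theorem closed_mem (h : Lev L) : ∃ c, ∀ Q : Set X, IsClosed Q → Q ∈ L c := by
  obtain ⟨j, hj⟩ := h.compl (Classical.arbitrary W1)
  refine ⟨j, fun Q hQ => ?_⟩
  have := hj Qᶜ (h.open_mem _ _ hQ.isOpen_compl)
  rwa [compl_compl] at this

/-- gluing of separated tiny sets. -/
theorem Good.level (h : Lev L) (hI : SatIdeal (bd L Y)) {𝒬 : Set (Set X)}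
    (hQ : Good (bd L Y) Y 𝒬) : ∃ j, ∀ F : Set T, un Y F ∩ ⋃₀ 𝒬 ∈ L j := by
  obtain ⟨h1, ε, hε, h2⟩ := hQ
  -- a uniform bound
  have hu : ∃ β, ∀ Q ∈ 𝒬, ∀ F : Set T, F ⊆ {t | (Y t ∩ Q).Nonempty} → un Y F ∈ L β := by
    by_contra hc
    push Not at hc
    choose Q hQ F hF hFL using hc
    have h3 : (⋃ β : W1, {t | (Y t ∩ Q β).Nonempty}) ∈ bd L Y := by
      refine (compl_addi (I := bd L Y)).iUnion _ ?_ fun β => (h1 _ (hQ β)).2
      calc lift.{v} #W1 = lift.{0} (ℵ₁ : Cardinal.{v}) := by simp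
        _ < lift.{0} (addi (bd L Y)) := lift_lt.mpr hI.aleph_one_lt_addi
    obtain ⟨β, hβ⟩ := h3
    exact hFL β (hβ _ ((hF β).trans (subset_iUnion (fun β => {t | (Y t ∩ Q β).Nonempty}) β)))
  obtain ⟨β, hβ⟩ := hu
  obtain ⟨c, hc⟩ := closed_mem h
  obtain ⟨j, hj⟩ := h.inter (max β c)
  obtain ⟨k, hk⟩ := glue.{u, u} h j
  refine ⟨k, fun F => ?_⟩
  have key : un Y F ∩ ⋃₀ 𝒬 = ⋃ Q : 𝒬, ((un Y (F ∩ {t | (Y t ∩ Q.1).Nonempty}) ∩ Q.1) ∩
      Metric.thickening (ε / 3) Q.1) := by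
    ext x
    simp only [mem_inter_iff, mem_sUnion, mem_iUnion]
    constructor
    · rintro ⟨⟨t, ht, hx⟩, Q, hQ, hxQ⟩
      refine ⟨⟨Q, hQ⟩, ⟨⟨t, ⟨ht, x, hx, hxQ⟩, hx⟩, hxQ⟩, ?_⟩
      exact Metric.self_subset_thickening (by positivity) _ hxQ
    · rintro ⟨Q, ⟨⟨t, ht, hx⟩, hxQ⟩, -⟩
      exact ⟨⟨t, ht.1, hx⟩, Q.1, Q.2, hxQ⟩
  rw [key]
  refine hk 𝒬 (fun Q => Metric.thickening (ε / 3) Q.1) _
    (fun Q => Metric.isOpen_thickening) ?_ ?_
  · intro Q Q' hne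
    rw [disjoint_left]
    intro x hx hx'
    rw [Metric.mem_thickening_iff] at hx hx'
    obtain ⟨y, hy, hxy⟩ := hx
    obtain ⟨y', hy', hxy'⟩ := hx'
    have h3 := h2 Q.1 Q.2 Q'.1 Q'.2 (fun h => hne (Subtype.ext h)) y hy y' hy'
    have h4 := dist_triangle_left y y' x
    linarith
  · intro Q
    refine hj _ (h.mono _ _ (le_max_left _ _) (hβ Q.1 Q.2 _ inter_subset_right)) _
      (h.mono _ _ (le_max_right _ _) (hc _ (h1 Q.1 Q.2).1))

theorem STiny.small (h : Lev L) (hI : SatIdeal (bd L Y)) {W : Set X} (hW : IsOpen W)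
    (hs : STiny (bd L Y) Y W) : Small L Y W := by
  obtain ⟨𝒬, h1, h2⟩ := hs
  have h3 : Small L Y (⋃ n, ⋃₀ 𝒬 n) := Small.iUnion h _ fun n => (h1 n).level h hI
  exact h3.mono_open h hW h2

/-- the union of the open σ-discretely tiny sets is such. -/
theorem STiny.sUnion (hI : SatIdeal I) : STiny I Y (⋃₀ {W | IsOpen W ∧ STiny I Y W}) := by
  let Λ := {W : Set X // IsOpen W ∧ STiny I Y W}
  let r : Λ → Λ → Prop := WellOrderingRel
  have hwf : WellFounded r := (inferInstance : IsWellOrder Λ WellOrderingRel).wf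
  have h0 : ∀ W : Λ, ∃ 𝒬 : ℕ → Set (Set X), (∀ n, Good I Y (𝒬 n)) ∧ W.1 ⊆ ⋃ n, ⋃₀ 𝒬 n :=
    fun W => W.2.2
  choose 𝒬 h1 h2 using h0
  choose h3 ε hε h4 using h1
  let M : ℕ → Λ → Set X := fun m W =>
    (Metric.thickening (1 / ((m : ℝ) + 1)) (W.1)ᶜ)ᶜ ∩ ⋂ W' ∈ {W' : Λ | r W' W}, (W'.1)ᶜ
  have hMc : ∀ m W, IsClosed (M m W) := by
    intro m W
    refine IsClosed.inter Metric.isOpen_thickening.isClosed_compl ?_
    exact isClosed_biInter fun W' _ => W'.2.1.isClosed_compl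
  have hMsep : ∀ m (W W' : Λ), W ≠ W' → ∀ x ∈ M m W, ∀ y ∈ M m W',
      1 / ((m : ℝ) + 1) ≤ dist x y := by
    intro m
    have aux : ∀ W W' : Λ, r W W' → ∀ x ∈ M m W, ∀ y ∈ M m W',
        1 / ((m : ℝ) + 1) ≤ dist x y := by
      intro W W' hr x hx y hy
      by_contra hc
      push Not at hc
      apply hx.1
      rw [Metric.mem_thickening_iff]
      refine ⟨y, ?_, hc⟩
      exact mem_iInter₂.mp hy.2 W hr
    intro W W' hne x hx y hy
    rcases trichotomous_of WellOrderingRel W W' with h | h | h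
    · exact aux W W' h x hx y hy
    · exact absurd h hne
    · rw [dist_comm]
      exact aux W' W h y hy x hx
  refine STiny.of_countable (fun p : ℕ × ℕ × ℕ => {A : Set X | ∃ W : Λ, ∃ Q ∈ 𝒬 W p.2.1,
    1 / ((p.2.2 : ℝ) + 1) ≤ ε W p.2.1 ∧ A = M p.1 W ∩ Q}) ?_ ?_
  · rintro ⟨m, n, k⟩
    refine ⟨?_, min (1 / ((m : ℝ) + 1)) (1 / ((k : ℝ) + 1)), ?_, ?_⟩
    · rintro _ ⟨W, Q, hQ, -, rfl⟩
      exact ⟨(hMc m W).inter (h3 W n Q hQ).1, (h3 W n Q hQ).2.mono hI inter_subset_right⟩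
    · exact lt_min (by positivity) (by positivity)
    · rintro _ ⟨W, Q, hQ, hk, rfl⟩ _ ⟨W', Q', hQ', hk', rfl⟩ hne x hx y hy
      by_cases hWW : W = W'
      · subst hWW
        have hQQ : Q ≠ Q' := by
          rintro rfl
          exact hne rfl
        exact (min_le_right _ _).trans (hk.trans (h4 W n Q hQ Q' hQ' hQQ x hx.2 y hy.2))
      · exact (min_le_left _ _).trans (hMsep m W W' hWW x hx.1 y hy.1)
  · rintro x ⟨W0, hW0, hxW0⟩
    obtain ⟨W, hW, hmin⟩ := hwf.has_min {W : Λ | x ∈ W.1} ⟨⟨W0, hW0⟩, hxW0⟩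
    obtain ⟨δ, hδ, hball⟩ := Metric.isOpen_iff.mp W.2.1 x hW
    obtain ⟨m, hm⟩ := exists_nat_one_div_lt hδ
    obtain ⟨n, hn⟩ := mem_iUnion.mp (h2 W hW)
    obtain ⟨Q, hQ, hxQ⟩ := hn
    obtain ⟨k, hk⟩ := exists_nat_one_div_lt (hε W n)
    refine mem_iUnion.mpr ⟨(m, n, k), M m W ∩ Q, ⟨W, Q, hQ, hk.le, rfl⟩, ⟨?_, ?_⟩, hxQ⟩
    · intro hx
      rw [Metric.mem_thickening_iff] at hx
      obtain ⟨z, hz, hd⟩ := hx
      apply hz
      apply hball
      rw [Metric.mem_ball, dist_comm]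
      exact hd.trans hm
    · exact mem_iInter₂.mpr fun W' hW' hx => hmin W' hx hW'

/-- the kernel. -/
theorem exists_kernel (h : Lev L) (hI : SatIdeal (bd L Y)) :
    ∃ H : Set X, IsClosed H ∧ H.Nonempty ∧ Small L Y Hᶜ ∧
      ∀ U : Set X, IsOpen U → (U ∩ H).Nonempty → ¬ Tiny (bd L Y) Y (U ∩ H) := by
  set O : Set X := ⋃₀ {W | IsOpen W ∧ STiny (bd L Y) Y W} with hO
  have hOo : IsOpen O := isOpen_sUnion fun U hU => hU.1
  have hOs : STiny (bd L Y) Y O := STiny.sUnion hI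
  refine ⟨Oᶜ, hOo.isClosed_compl, ?_, by rw [compl_compl]; exact hOs.small h hI hOo, ?_⟩
  · rw [nonempty_compl]
    intro hu
    obtain ⟨j, hj⟩ := hOs.small h hI hOo
    apply hI.proper
    refine ⟨j, fun F _ => ?_⟩
    have := hj F
    rwa [hu, inter_univ] at this
  · intro U hU hne ht
    have h1 : STiny (bd L Y) Y U := by
      have h2 : STiny (bd L Y) Y (⋃ m : ℕ,
          ((Metric.thickening (1 / ((m : ℝ) + 1)) Uᶜ)ᶜ ∩ Oᶜ)) := by
        refine STiny.iUnion _ fun m => STiny.of_closed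
          (Metric.isOpen_thickening.isClosed_compl.inter hOo.isClosed_compl) (ht.mono hI ?_)
        refine inter_subset_inter_left _ ?_
        rw [compl_subset_comm]
        exact Metric.self_subset_thickening (by positivity) _
      refine (hOs.union h2).mono ?_
      intro x hx
      by_cases hxO : x ∈ O
      · exact Or.inl hxO
      · right
        obtain ⟨δ, hδ, hball⟩ := Metric.isOpen_iff.mp hU x hx
        obtain ⟨m, hm⟩ := exists_nat_one_div_lt hδ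
        refine mem_iUnion.mpr ⟨m, ?_, hxO⟩
        intro hx'
        rw [Metric.mem_thickening_iff] at hx'
        obtain ⟨z, hz, hd⟩ := hx'
        apply hz
        apply hball
        rw [Metric.mem_ball, dist_comm]
        exact hd.trans hm
    obtain ⟨x, hxU, hxO⟩ := hne
    exact hxO ⟨U, ⟨hU, h1⟩, hxU⟩

end

end Pool.Agent.TH566.BC
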