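import Pool.Agent.TH566.BC.W1

/-!
# Levels of the Borel hierarchy, indexed by `W1`
-/

set_option autoImplicit false

open Set Cardinal Ordinal

namespace Pool.Agent.TH566.BC

universe u v w

/-- An abstract increasing `ω₁`-hierarchy behaving like the additive Borel classes. -/
structure Lev {X : Type u} [TopologicalSpace X] (L : W1 → Set (Set X)) : Prop where
  open_mem : ∀ (i : W1) (U : Set X), IsOpen U → U ∈ L i
  mono : ∀ i j : W1, i ≤ j → L i ⊆ L j
  iUnion : ∀ (i : W1) (f : ℕ → Set X), (∀ n, f n ∈ L i) → (⋃ n, f n) ∈ L i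
  compl : ∀ i : W1, ∃ j : W1, ∀ A ∈ L i, Aᶜ ∈ L j
  step : ∀ (i : W1) (A : Set X), A ∈ L i → IsOpen A ∨
    ∃ f : ℕ → Set X, A = (⋃ n, f n) ∧ ∀ n, ∃ j < i, (f n)ᶜ ∈ L j

namespace Lev

variable {X : Type u} [TopologicalSpace X] {L : W1 → Set (Set X)}

theorem empty_mem (h : Lev L) (i : W1) : (∅ : Set X) ∈ L i := h.open_mem i _ isOpen_empty

theorem iUnion' (h : Lev L) {ι : Type*} [Countable ι] (i : W1) (f : ι → Set X)
    (hf : ∀ n, f n ∈ L i) : (⋃ n, f n) ∈ L i := by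
  rcases isEmpty_or_nonempty ι with hι | hι
  · simpa using h.empty_mem i
  · obtain ⟨g, hg⟩ := exists_surjective_nat ι
    have : (⋃ n, f n) = ⋃ n, f (g n) := (hg.iUnion_comp f).symm
    rw [this]
    exact h.iUnion i _ fun n => hf _

theorem biUnion (h : Lev L) {ι : Type*} {s : Set ι} (hs : s.Countable) (i : W1) (f : ι → Set X)
    (hf : ∀ n ∈ s, f n ∈ L i) : (⋃ n ∈ s, f n) ∈ L i := by
  rw [biUnion_eq_iUnion]
  have := hs.to_subtype
  exact h.iUnion' i _ fun n => hf _ n.2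

theorem union (h : Lev L) {i : W1} {A B : Set X} (hA : A ∈ L i) (hB : B ∈ L i) :
    A ∪ B ∈ L i := by
  rw [union_eq_iUnion]
  exact h.iUnion' i _ fun b => by cases b <;> simpa

theorem inter (h : Lev L) (i : W1) : ∃ j : W1, ∀ A ∈ L i, ∀ B ∈ L i, A ∩ B ∈ L j := by
  obtain ⟨j, hj⟩ := h.compl i
  obtain ⟨k, hk⟩ := h.compl j
  refine ⟨k, fun A hA B hB => ?_⟩
  have : A ∩ B = (Aᶜ ∪ Bᶜ)ᶜ := by simp
  rw [this]
  exact hk _ (h.union (hj A hA) (hj B hB))

theorem diff (h : Lev L) (i : W1) : ∃ j : W1, ∀ A ∈ L i, ∀ B ∈ L i, A \ B ∈ L j := by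
  obtain ⟨j, hj⟩ := h.compl i
  obtain ⟨k, hk⟩ := h.inter (max i j)
  refine ⟨k, fun A hA B hB => ?_⟩
  rw [sdiff_eq]
  exact hk _ (h.mono _ _ (le_max_left _ _) hA) _ (h.mono _ _ (le_max_right _ _) (hj B hB))

/-- countably many sets with a level have a common level. -/
theorem bdd (h : Lev L) {ι : Type*} {s : Set ι} (hs : s.Countable) (P : ι → Set (Set X))
    (hP : ∀ n ∈ s, ∃ i, P n ⊆ L i) : ∃ i, ∀ n ∈ s, P n ⊆ L i := by
  choose! g hg using hP
  obtain ⟨δ, hδ⟩ := W1.bdd (hs.image g)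
  exact ⟨δ, fun n hn => (hg n hn).trans (h.mono _ _ (hδ _ (mem_image_of_mem _ hn)).le)⟩

theorem bdd' (h : Lev L) {ι : Type*} [Countable ι] (P : ι → Set (Set X))
    (hP : ∀ n, ∃ i, P n ⊆ L i) : ∃ i, ∀ n, P n ⊆ L i := by
  obtain ⟨i, hi⟩ := h.bdd (countable_univ (α := ι)) P fun n _ => hP n
  exact ⟨i, fun n => hi n (mem_univ n)⟩

/-- Borel sets have a level. -/
theorem of_borel (h : Lev L) {A : Set X} (hA : @MeasurableSet X (borel X) A) :
    ∃ i, A ∈ L i := by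
  have hA' : MeasurableSpace.GenerateMeasurable {U : Set X | IsOpen U} A := hA
  clear hA
  induction hA' with
  | basic U hU => exact ⟨Classical.arbitrary W1, h.open_mem _ _ hU⟩
  | empty => exact ⟨Classical.arbitrary W1, h.empty_mem _⟩
  | compl A hA ih =>
    obtain ⟨i, hi⟩ := ih
    obtain ⟨j, hj⟩ := h.compl i
    exact ⟨j, hj A hi⟩
  | iUnion f hf ih =>
    obtain ⟨i, hi⟩ := h.bdd' (fun n => {f n}) fun n => by
      obtain ⟨i, hi⟩ := ih n
      exact ⟨i, by simpa using hi⟩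
    exact ⟨i, h.iUnion i f fun n => hi n rfl⟩

end Lev

/-- the hierarchy of the problem. -/
theorem lev_of_hier {X : Type u} [MetricSpace X] {S : Ordinal.{0} → Set (Set X)}
    (h1 : S 1 = {U : Set X | IsOpen U})
    (h2 : ∀ α : Ordinal.{0}, 1 < α → α < (Cardinal.aleph 1).ord →
        S α = {A : Set X | ∃ f : ℕ → Set X, A = (⋃ n, f n) ∧
          ∀ n, ∃ β : Ordinal.{0}, 1 ≤ β ∧ β < α ∧ (f n)ᶜ ∈ S β}) :
    Lev (fun i : W1 => S (max 1 i.o)) := by
  have hω : (Cardinal.aleph 1).ord = (ω₁ : Ordinal.{0}) := by simp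
  rw [hω] at h2
  have h1ω : (1 : Ordinal.{0}) < ω₁ := (one_lt_omega0).trans omega0_lt_omega_one
  -- open sets
  have hopen : ∀ α : Ordinal.{0}, 1 ≤ α → α < ω₁ → ∀ U : Set X, IsOpen U → U ∈ S α := by
    intro α hα hα' U hU
    rcases hα.eq_or_lt with rfl | hlt
    · rw [h1]; exact hU
    · rw [h2 α hlt hα']
      obtain ⟨F, hF, -, hFU, -⟩ := hU.exists_iUnion_isClosed
      exact ⟨F, hFU.symm, fun n => ⟨1, le_rfl, hlt, by rw [h1]; exact (hF n).isOpen_compl⟩⟩
  have hmono : ∀ α β : Ordinal.{0}, 1 ≤ α → α ≤ β → β < ω₁ → S α ⊆ S β := by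
    intro α β hα hαβ hβ A hA
    rcases hα.eq_or_lt with rfl | hlt
    · rw [h1] at hA
      exact hopen β hαβ hβ A hA
    · rw [h2 α hlt (hαβ.trans_lt hβ)] at hA
      rw [h2 β (hlt.trans_le hαβ) hβ]
      obtain ⟨f, hf, hf'⟩ := hA
      refine ⟨f, hf, fun n => ?_⟩
      obtain ⟨γ, h3, h4, h5⟩ := hf' n
      exact ⟨γ, h3, h4.trans_le hαβ, h5⟩
  have hM : ∀ i : W1, max 1 i.o < ω₁ := fun i => max_lt h1ω i.o_lt
  constructor
  · intro i U hU
    exact hopen _ (le_max_left _ _) (hM i) U hU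
  · intro i j hij
    exact hmono _ _ (le_max_left _ _) (max_le_max le_rfl (W1.o_le_o.mpr hij)) (hM j)
  · intro i f hf
    rcases (le_max_left 1 i.o).eq_or_lt with he | hlt
    · simp only [← he, h1, mem_ofPred_eq] at hf ⊢
      exact isOpen_iUnion hf
    · simp only [h2 _ hlt (hM i), mem_ofPred_eq] at hf ⊢
      choose g hg hg' using hf
      refine ⟨fun n => g n.unpair.1 n.unpair.2, ?_, fun n => hg' _ _⟩
      ext x
      simp only [mem_iUnion, hg]
      constructor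
      · rintro ⟨a, b, hx⟩
        exact ⟨Nat.pair a b, by simpa using hx⟩
      · rintro ⟨n, hx⟩
        exact ⟨_, _, hx⟩
  · intro i
    have hlt : max 1 i.o + 1 < ω₁ := (isSuccLimit_omega 1).add_one_lt (hM i)
    obtain ⟨j, hj⟩ := W1.exists_o _ hlt
    refine ⟨j, fun A hA => ?_⟩
    have h1j : max 1 j.o = max 1 i.o + 1 := by
      rw [hj]
      exact max_eq_right ((le_max_left _ _).trans (le_add_right le_rfl))
    have h1lt : 1 < max 1 i.o + 1 := (le_max_left _ _).trans_lt (lt_add_one _)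
    rw [h1j, h2 _ h1lt hlt]
    refine ⟨fun _ => Aᶜ, (iUnion_const _).symm, fun _ => ⟨max 1 i.o, le_max_left _ _, lt_add_one _, ?_⟩⟩
    rwa [compl_compl]
  · intro i A hA
    rcases (le_max_left 1 i.o).eq_or_lt with he | hlt
    · left
      simpa only [← he, h1, mem_ofPred_eq] using hA
    · right
      have h1i : 1 < i.o := by
        by_contra hc
        push Not at hc
        rw [max_eq_left hc] at hlt
        exact lt_irrefl _ hlt
      rw [h2 _ hlt (hM i)] at hA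
      obtain ⟨f, hf, hf'⟩ := hA
      refine ⟨f, hf, fun n => ?_⟩
      obtain ⟨β, h3, h4, h5⟩ := hf' n
      rw [max_eq_right h1i.le] at h4
      obtain ⟨j, hj⟩ := W1.exists_o β (h4.trans i.o_lt)
      refine ⟨j, W1.o_lt_o.mp (hj ▸ h4), ?_⟩
      rwa [hj, max_eq_right h3]

end Pool.Agent.TH566.BC
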