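import Pool.Agent.TH566.BC.Ideal

/-!
# Rectangles: families when the power set of `ω₁` is countably generated
-/

set_option autoImplicit false

open Set Cardinal Ordinal TopologicalSpace

namespace Pool.Agent.TH566.BC

universe u v w

section
variable {X : Type u} {T : Type v} [TopologicalSpace X] [TopologicalSpace T]
  {L : W1 → Set (Set X)} {Y : T → Set X}

/-- subsets of `T × W1` all of whose horizontal sections have unions of bounded level. -/
def VG [SecondCountableTopology T] (L : W1 → Set (Set X)) (Y : T → Set X)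
    (D : Set (T × W1)) : Prop :=
  ∃ j, ∀ i : W1, ∀ b ∈ countableBasis T, un Y ({t | (t, i) ∈ D} ∩ b) ∈ L j

/-- exactly one index in `b`. -/
def One (Y : T → Set X) (b : Set T) : Set X := {x | ∃ t ∈ b, x ∈ Y t ∧ ∀ s ∈ b, x ∈ Y s → s = t}

variable [SecondCountableTopology T] [T2Space T]

omit [TopologicalSpace X] in
theorem one_eq {b : Set T} (hb : b ∈ countableBasis T) :
    One Y b = un Y b \ ⋃ p ∈ {p : Set T × Set T | p.1 ∈ countableBasis T ∧
      p.2 ∈ countableBasis T ∧ p.1 ⊆ b ∧ p.2 ⊆ b ∧ Disjoint p.1 p.2}, (un Y p.1 ∩ un Y p.2) := by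
  ext x
  simp only [mem_sdiff, mem_iUnion, not_exists]
  constructor
  · rintro ⟨t, htb, hxt, huniq⟩
    refine ⟨⟨t, htb, hxt⟩, ?_⟩
    rintro p ⟨h1, h2, h3, h4, h5⟩ ⟨⟨s, hs, hxs⟩, ⟨r, hr, hxr⟩⟩
    have e1 := huniq s (h3 hs) hxs
    have e2 := huniq r (h4 hr) hxr
    subst e1; subst e2
    exact disjoint_left.mp h5 hs hr
  · rintro ⟨⟨t, htb, hxt⟩, h⟩
    refine ⟨t, htb, hxt, fun s hs hxs => ?_⟩
    by_contra hne
    obtain ⟨V, W, hV, hW, hsV, htW, hVW⟩ := t2_separation hne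
    have hbo : IsOpen b := (isBasis_countableBasis T).isOpen hb
    obtain ⟨b1, hb1, hsb1, hb1V⟩ := (isBasis_countableBasis T).exists_subset_of_mem_open
      (show s ∈ V ∩ b from ⟨hsV, hs⟩) (hV.inter hbo)
    obtain ⟨b2, hb2, htb2, hb2W⟩ := (isBasis_countableBasis T).exists_subset_of_mem_open
      (show t ∈ W ∩ b from ⟨htW, htb⟩) (hW.inter hbo)
    exact h (b1, b2) ⟨hb1, hb2, hb1V.trans inter_subset_right, hb2W.trans inter_subset_right,
      hVW.mono (hb1V.trans inter_subset_left) (hb2W.trans inter_subset_left)⟩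
      ⟨⟨s, hsb1, hxs⟩, ⟨t, htb2, hxt⟩⟩

theorem exists_one (h : Lev L) (hY : PF L Y) : ∃ j, ∀ b ∈ countableBasis T, One Y b ∈ L j := by
  have hc := countable_countableBasis T
  obtain ⟨i, hi⟩ := h.bdd hc (fun b => {un Y b}) fun b _ => by
    obtain ⟨i, hi⟩ := hY.add b
    exact ⟨i, by simpa using hi⟩
  obtain ⟨j, hj⟩ := h.inter i
  obtain ⟨k, hk⟩ := h.diff (max i j)
  refine ⟨k, fun b hb => ?_⟩
  rw [one_eq hb]
  refine hk _ (h.mono _ _ (le_max_left _ _) (hi b hb rfl)) _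
    (h.mono _ _ (le_max_right _ _) (h.biUnion ?_ _ _ ?_))
  · refine (hc.prod hc).mono ?_
    rintro p ⟨h1, h2, -⟩
    exact ⟨h1, h2⟩
  · rintro p ⟨h1, h2, -⟩
    exact hj _ (hi _ h1 rfl) _ (hi _ h2 rfl)

omit [TopologicalSpace X] in
theorem un_compl_inter (h : PF L Y) {b : Set T} (hb : b ∈ countableBasis T) (E : Set T) :
    un Y (Eᶜ ∩ b) = ⋃ q ∈ {q : Set T | q ∈ countableBasis T ∧ q ⊆ b},
      (One Y q \ un Y (E ∩ q)) := by
  ext x
  simp only [mem_iUnion, mem_sdiff]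
  constructor
  · rintro ⟨t, ⟨htE, htb⟩, hxt⟩
    have hfin : ({s | x ∈ Y s} \ {t} : Set T).Finite := (h.fin x).subset sdiff_subset
    have hbo : IsOpen b := (isBasis_countableBasis T).isOpen hb
    obtain ⟨q, hq, htq, hqV⟩ := (isBasis_countableBasis T).exists_subset_of_mem_open
      (show t ∈ b ∩ ({s | x ∈ Y s} \ {t})ᶜ from ⟨htb, fun h => h.2 rfl⟩)
      (hbo.inter hfin.isClosed.isOpen_compl)
    have huniq : ∀ s ∈ q, x ∈ Y s → s = t := by
      intro s hs hxs
      by_contra hne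
      exact (hqV hs).2 ⟨hxs, hne⟩
    refine ⟨q, ⟨hq, hqV.trans inter_subset_left⟩, ⟨t, htq, hxt, huniq⟩, ?_⟩
    rintro ⟨s, ⟨hsE, hsq⟩, hxs⟩
    have := huniq s hsq hxs
    subst this
    exact htE hsE
  · rintro ⟨q, ⟨hq, hqb⟩, ⟨t, htq, hxt, -⟩, hn⟩
    exact ⟨t, ⟨fun htE => hn ⟨t, ⟨htE, htq⟩, hxt⟩, hqb htq⟩, hxt⟩

theorem VG.empty (h : Lev L) : VG L Y (∅ : Set (T × W1)) := by
  refine ⟨Classical.arbitrary W1, fun i b _ => ?_⟩
  have : ({t | (t, i) ∈ (∅ : Set (T × W1))} ∩ b : Set T) = ∅ := by simp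
  rw [this, un_empty]
  exact h.empty_mem _

theorem VG.compl (h : Lev L) (hY : PF L Y) {D : Set (T × W1)} (hD : VG L Y D) :
    VG L Y Dᶜ := by
  obtain ⟨j, hj⟩ := hD
  obtain ⟨k, hk⟩ := exists_one h hY
  obtain ⟨m, hm⟩ := h.diff (max j k)
  refine ⟨m, fun i b hb => ?_⟩
  have : ({t | (t, i) ∈ Dᶜ} ∩ b : Set T) = {t | (t, i) ∈ D}ᶜ ∩ b := rfl
  rw [this, un_compl_inter hY hb]
  refine h.biUnion ((countable_countableBasis T).mono fun q hq => hq.1) _ _ ?_
  rintro q ⟨hq, -⟩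
  exact hm _ (h.mono _ _ (le_max_right _ _) (hk q hq)) _
    (h.mono _ _ (le_max_left _ _) (hj i q hq))

theorem VG.iUnion (h : Lev L) (f : ℕ → Set (T × W1)) (hf : ∀ n, VG L Y (f n)) :
    VG L Y (⋃ n, f n) := by
  obtain ⟨j, hj⟩ := h.bdd' (fun n => {A | ∃ i : W1, ∃ b ∈ countableBasis T,
      A = un Y ({t | (t, i) ∈ f n} ∩ b)}) fun n => by
    obtain ⟨j, hj⟩ := hf n
    refine ⟨j, ?_⟩
    rintro _ ⟨i, b, hb, rfl⟩
    exact hj i b hb
  refine ⟨j, fun i b hb => ?_⟩
  have : ({t | (t, i) ∈ ⋃ n, f n} ∩ b : Set T) = ⋃ n, ({t | (t, i) ∈ f n} ∩ b) := by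
    ext t; simp
  rw [this, un_iUnion]
  exact h.iUnion _ _ fun n => hj n ⟨i, b, hb, rfl⟩

/-- the σ-algebra of very good sets. -/
@[instance_reducible]
def vgSpace (h : Lev L) (hY : PF L Y) : MeasurableSpace (T × W1) where
  MeasurableSet' := VG L Y
  measurableSet_empty := VG.empty h
  measurableSet_compl := fun _ hD => VG.compl h hY hD
  measurableSet_iUnion := fun f hf => VG.iUnion h f hf

theorem VG.rect (h : Lev L) (hY : PF L Y) (P : Set T) (Q : Set W1) : VG L Y (P ×ˢ Q) := by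
  obtain ⟨j, hj⟩ := h.bdd (countable_countableBasis T) (fun b => {un Y (P ∩ b)}) fun b _ => by
    obtain ⟨i, hi⟩ := hY.add (P ∩ b)
    exact ⟨i, by simpa using hi⟩
  refine ⟨j, fun i b hb => ?_⟩
  by_cases hi : i ∈ Q
  · have : ({t | (t, i) ∈ P ×ˢ Q} ∩ b : Set T) = P ∩ b := by
      ext t; simp [hi]
    rw [this]
    exact hj b hb rfl
  · have : ({t | (t, i) ∈ P ×ˢ Q} ∩ b : Set T) = ∅ := by
      ext t; simp [hi]
    rw [this, un_empty]
    exact h.empty_mem _

theorem VG.un_iUnion_countable (h : Lev L) (hY : PF L Y) {ι : Type*} [Countable ι]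
    (f : ι → Set (T × W1)) (hf : ∀ n, VG L Y (f n)) : VG L Y (⋃ n, f n) := by
  let _m : MeasurableSpace (T × W1) := vgSpace h hY
  have : ∀ n, MeasurableSet (f n) := hf
  exact MeasurableSet.iUnion this

theorem VG.inter (h : Lev L) (hY : PF L Y) {A B : Set (T × W1)} (hA : VG L Y A)
    (hB : VG L Y B) : VG L Y (A ∩ B) := by
  let _m : MeasurableSpace (T × W1) := vgSpace h hY
  exact @MeasurableSet.inter _ _m _ _ hA hB

theorem VG.union (h : Lev L) (hY : PF L Y) {A B : Set (T × W1)} (hA : VG L Y A)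
    (hB : VG L Y B) : VG L Y (A ∪ B) := by
  let _m : MeasurableSpace (T × W1) := vgSpace h hY
  exact @MeasurableSet.union _ _m _ _ hA hB

theorem rec_cases {α : Type*} {s : Set (Set α)} {β : Ordinal.{0}} {A : Set α}
    (h : A ∈ MeasurableSpace.generateMeasurableRec s β) :
    A ∈ s ∨ A = ∅ ∨ (∃ B, (∃ γ < β, B ∈ MeasurableSpace.generateMeasurableRec s γ) ∧ A = Bᶜ) ∨
    (∃ f : ℕ → Set α, (∀ n, ∃ γ < β, f n ∈ MeasurableSpace.generateMeasurableRec s γ) ∧
      A = ⋃ n, f n) := by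
  unfold MeasurableSpace.generateMeasurableRec at h
  rcases h with ((h | h) | h) | h
  · exact Or.inl h
  · exact Or.inr (Or.inl h)
  · obtain ⟨B, hB, rfl⟩ := h
    refine Or.inr (Or.inr (Or.inl ⟨B, ?_, rfl⟩))
    simpa using hB
  · obtain ⟨f, rfl⟩ := h
    refine Or.inr (Or.inr (Or.inr ⟨fun n => (f n).1, fun n => ?_, rfl⟩))
    have := (f n).2
    rw [mem_iUnion₂] at this
    obtain ⟨γ, hγ, h⟩ := this
    exact ⟨γ, hγ, h⟩

open MeasurableSpace in
/-- Lemma R. -/
theorem lemR (h : Lev L) (hY : PF L Y) (C : ℕ → Set W1) (β : W1) :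
    ∀ A : T → Set W1, (∀ t, A t ∈ generateMeasurableRec (range C) β.o) →
      VG L Y {p : T × W1 | p.2 ∈ A p.1} := by
  induction β using WellFoundedLT.induction with
  | ind β ih =>
  intro A hA
  have R0 : ∀ B : T → Set W1,
      (∀ t, B t = ∅ ∨ ∃ γ < β.o, B t ∈ generateMeasurableRec (range C) γ) →
      VG L Y {p : T × W1 | p.2 ∈ B p.1} := by
    classical
    intro B hB
    have hc : Countable (Iio β) := (W1.countable_Iio β).to_subtype
    have he : {p : T × W1 | p.2 ∈ B p.1} = ⋃ j : Iio β, {p : T × W1 | p.2 ∈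
        (if B p.1 ∈ generateMeasurableRec (range C) (j : W1).o then B p.1 else ∅)} := by
      ext ⟨t, i⟩
      simp only [mem_iUnion, mem_ofPred_eq]
      constructor
      · intro hi
        rcases hB t with h0 | ⟨γ, hγ, hBγ⟩
        · rw [h0] at hi; exact absurd hi (notMem_empty _)
        · obtain ⟨j, hj⟩ := W1.exists_o γ (hγ.trans β.o_lt)
          refine ⟨⟨j, W1.o_lt_o.mp (hj ▸ hγ)⟩, ?_⟩
          simp only [hj]
          rw [if_pos hBγ]
          exact hi
      · rintro ⟨j, hj⟩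
        split_ifs at hj
        · exact hj
        · exact absurd hj (notMem_empty _)
    rw [he]
    refine VG.un_iUnion_countable h hY _ fun j => ih j j.2 (fun t =>
      if B t ∈ generateMeasurableRec (range C) (j : W1).o then B t else ∅) fun t => ?_
    beta_reduce
    split_ifs with h1
    · exact h1
    · exact empty_mem_generateMeasurableRec _ _
  classical
  -- the four cases
  let T3 : Set T := {t | ∃ B, (∃ γ < β.o, B ∈ generateMeasurableRec (range C) γ) ∧ A t = Bᶜ}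
  let T4 : Set T := {t | ∃ f : ℕ → Set W1,
    (∀ n, ∃ γ < β.o, f n ∈ generateMeasurableRec (range C) γ) ∧ A t = ⋃ n, f n}
  have h3 : ∃ B : T → Set W1, (∀ t, B t = ∅ ∨ ∃ γ < β.o, B t ∈ generateMeasurableRec (range C) γ) ∧
      ∀ t ∈ T3, A t = (B t)ᶜ := by
    have : ∀ t, ∃ B : Set W1, (B = ∅ ∨ ∃ γ < β.o, B ∈ generateMeasurableRec (range C) γ) ∧
        (t ∈ T3 → A t = Bᶜ) := by
      intro t
      by_cases ht : t ∈ T3
      · obtain ⟨B, hB, hB'⟩ := ht
        exact ⟨B, Or.inr hB, fun _ => hB'⟩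
      · exact ⟨∅, Or.inl rfl, fun h => absurd h ht⟩
    choose B hB hB' using this
    exact ⟨B, hB, hB'⟩
  have h4 : ∃ f : ℕ → T → Set W1,
      (∀ n t, f n t = ∅ ∨ ∃ γ < β.o, f n t ∈ generateMeasurableRec (range C) γ) ∧
      (∀ t ∈ T4, A t = ⋃ n, f n t) ∧ ∀ t ∉ T4, ∀ n, f n t = ∅ := by
    have : ∀ t, ∃ f : ℕ → Set W1,
        (∀ n, f n = ∅ ∨ ∃ γ < β.o, f n ∈ generateMeasurableRec (range C) γ) ∧
        (t ∈ T4 → A t = ⋃ n, f n) ∧ (t ∉ T4 → ∀ n, f n = ∅) := by
      intro t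
      by_cases ht : t ∈ T4
      · have ht' := ht
        obtain ⟨f, hf, hf'⟩ := ht
        exact ⟨f, fun n => Or.inr (hf n), fun _ => hf', fun h => absurd ht' h⟩
      · exact ⟨fun _ => ∅, fun n => Or.inl rfl, fun h => absurd h ht, fun _ _ => rfl⟩
    choose f hf hf' hf'' using this
    exact ⟨fun n t => f t n, fun n t => hf t n, hf', fun t ht n => hf'' t ht n⟩
  obtain ⟨B, hB, hB'⟩ := h3
  obtain ⟨f, hf, hf', hf''⟩ := h4
  have key : {p : T × W1 | p.2 ∈ A p.1} =
      ((⋃ n : ℕ, {t | A t = C n} ×ˢ C n) ∪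
        ((T3 ×ˢ (Set.univ : Set W1)) ∩ {p : T × W1 | p.2 ∈ B p.1}ᶜ)) ∪
        ⋃ n : ℕ, {p : T × W1 | p.2 ∈ f n p.1} := by
    ext ⟨t, i⟩
    simp only [mem_ofPred_eq, mem_union, mem_iUnion, mem_inter_iff, mem_compl_iff,
      mem_prod, mem_univ, and_true]
    constructor
    · intro hi
      rcases rec_cases (hA t) with h1 | h1 | h1 | h1
      · obtain ⟨n, hn⟩ := h1
        exact Or.inl (Or.inl ⟨n, hn.symm, by rw [hn]; exact hi⟩)
      · rw [h1] at hi; exact absurd hi (notMem_empty _)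
      · left; right
        refine ⟨h1, ?_⟩
        rw [hB' t h1] at hi
        exact hi
      · right
        rw [hf' t h1] at hi
        simpa using hi
    · rintro ((⟨n, h1, h2⟩ | ⟨h1, h2⟩) | ⟨n, h1⟩)
      · rw [h1]; exact h2
      · rw [hB' t h1]; exact h2
      · by_cases ht : t ∈ T4
        · rw [hf' t ht]; exact mem_iUnion.mpr ⟨n, h1⟩
        · rw [hf'' t ht n] at h1; exact absurd h1 (notMem_empty _)
  rw [key]
  refine VG.union h hY (VG.union h hY ?_ ?_) ?_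
  · exact VG.un_iUnion_countable h hY _ fun n => VG.rect h hY _ _
  · exact VG.inter h hY (VG.rect h hY _ _) (VG.compl h hY (R0 B hB))
  · exact VG.un_iUnion_countable h hY _ fun n => R0 _ (hf n)

/-- Lemma C. -/
theorem lemC (h : Lev L) (hY : PF L Y) (hI : SatIdeal (bd L Y)) (C : ℕ → Set W1)
    (hC : ∀ A : Set W1, MeasurableSpace.GenerateMeasurable (range C) A) (F : W1 → Set T) :
    ∃ j, ∀ i, un Y (F i) ∈ L j := by
  classical
  have h1 : ∀ t : T, ∃ s : W1, {i | t ∈ F i} ∈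
      MeasurableSpace.generateMeasurableRec (range C) s.o := by
    intro t
    have h2 : {i | t ∈ F i} ∈ MeasurableSpace.generateMeasurableRec (range C) (ω₁ : Ordinal.{0}) := by
      rw [← MeasurableSpace.generateMeasurable_eq_rec]
      exact hC _
    rw [MeasurableSpace.generateMeasurableRec_omega_one] at h2
    simp only [mem_iUnion] at h2
    obtain ⟨β, hβ, h3⟩ := h2
    obtain ⟨s, rfl⟩ := W1.exists_o β hβ
    exact ⟨s, h3⟩
  choose s hs using h1
  obtain ⟨δ, hδ⟩ := hI.press s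
  obtain ⟨jN, hjN⟩ := hδ
  have hR := lemR h hY C δ (fun t => if δ < s t then ∅ else {i | t ∈ F i}) fun t => by
    split_ifs with hlt
    · exact MeasurableSpace.empty_mem_generateMeasurableRec _ _
    · exact MeasurableSpace.generateMeasurableRec_mono _ (W1.o_le_o.mpr (not_lt.mp hlt)) (hs t)
  obtain ⟨j, hj⟩ := hR
  refine ⟨max j jN, fun i => ?_⟩
  have e1 : F i = (F i ∩ {t | δ < s t}) ∪ ⋃ b ∈ countableBasis T,
      ({t | (t, i) ∈ {p : T × W1 | p.2 ∈ (if δ < s p.1 then ∅ else {i | p.1 ∈ F i} : Set W1)}} ∩ b)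
      := by
    ext t
    simp only [mem_union, mem_inter_iff, mem_ofPred_eq, mem_iUnion, exists_prop]
    constructor
    · intro hi
      by_cases hlt : δ < s t
      · exact Or.inl ⟨hi, hlt⟩
      · right
        obtain ⟨b, hb, htb, -⟩ := (isBasis_countableBasis T).exists_subset_of_mem_open
          (mem_univ t) isOpen_univ
        refine ⟨b, hb, ?_, htb⟩
        rw [if_neg hlt]
        exact hi
    · rintro (h1 | ⟨b, hb, h1, h2⟩)
      · exact h1.1
      · split_ifs at h1 with hlt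
        · exact absurd h1 (notMem_empty _)
        · exact h1
  rw [e1, un_union]
  refine h.union (h.mono _ _ (le_max_right _ _) (hjN _ inter_subset_right)) ?_
  have e2 : ∀ G : Set T → Set T, un Y (⋃ b ∈ countableBasis T, G b) =
      ⋃ b ∈ countableBasis T, un Y (G b) := by
    intro G
    rw [un_iUnion]
    simp_rw [un_iUnion]
  rw [e2]
  exact h.mono _ _ (le_max_left _ _) (h.biUnion (countable_countableBasis T) _ _ fun b hb =>
    hj i b hb)

end

end Pool.Agent.TH566.BC
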