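import Pool.Agent.TH566.BC.Rect

/-!
# Separability and disjoint supports
-/

set_option autoImplicit false

open Set Cardinal Ordinal TopologicalSpace

namespace Pool.Agent.TH566.BC

universe u v w

/-- maximal cliques of a symmetric relation. -/
theorem exists_max_clique {α : Type u} (Z : Set α) (r : α → α → Prop) :
    ∃ M ⊆ Z, (∀ x ∈ M, ∀ y ∈ M, x ≠ y → r x y) ∧
      ∀ z ∈ Z, (∀ x ∈ M, x ≠ z → r x z ∧ r z x) → z ∈ M := by
  obtain ⟨M, hM⟩ := zorn_subset {M : Set α | M ⊆ Z ∧ ∀ x ∈ M, ∀ y ∈ M, x ≠ y → r x y} (by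
    intro c hc hchain
    refine ⟨⋃₀ c, ⟨sUnion_subset fun s hs => (hc hs).1, ?_⟩, fun s hs => subset_sUnion_of_mem hs⟩
    rintro x ⟨s, hs, hxs⟩ y ⟨t, ht, hyt⟩ hne
    rcases hchain.total hs ht with hst | hts
    · exact (hc ht).2 x (hst hxs) y hyt hne
    · exact (hc hs).2 x hxs y (hts hyt) hne)
  refine ⟨M, hM.prop.1, hM.prop.2, fun z hz h => ?_⟩
  have h1 : insert z M ∈ {M : Set α | M ⊆ Z ∧ ∀ x ∈ M, ∀ y ∈ M, x ≠ y → r x y} := by
    refine ⟨insert_subset hz hM.prop.1, ?_⟩
    rintro x (rfl | hx) y (rfl | hy) hne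
    · exact absurd rfl hne
    · exact (h y hy hne.symm).2
    · exact (h x hx hne).1
    · exact hM.prop.2 x hx y hy hne
  exact hM.le_of_ge h1 (subset_insert z M) (mem_insert z M)

theorem exists_separated {X : Type u} [MetricSpace X] {Z : Set X} (hZ : ¬ IsSeparable Z) :
    ∃ ε > 0, ∃ A ⊆ Z, ¬ A.Countable ∧ ∀ a ∈ A, ∀ b ∈ A, a ≠ b → ε ≤ dist a b := by
  by_contra hcon
  push Not at hcon
  apply hZ
  have h1 : ∀ n : ℕ, ∃ M ⊆ Z, M.Countable ∧ ∀ z ∈ Z, ∃ x ∈ M, dist x z < 1 / ((n : ℝ) + 1) := by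
    intro n
    have hpos : (0 : ℝ) < 1 / ((n : ℝ) + 1) := by positivity
    obtain ⟨M, hMZ, hM1, hM2⟩ := exists_max_clique Z
      (fun x y => 1 / ((n : ℝ) + 1) ≤ dist x y)
    refine ⟨M, hMZ, ?_, ?_⟩
    · by_contra hc
      obtain ⟨a, ha, b, hb, hab, hlt⟩ := hcon _ hpos M hMZ hc
      exact absurd (hM1 a ha b hb hab) (not_le.mpr hlt)
    · intro z hz
      by_contra hc
      push Not at hc
      have := hM2 z hz fun x hx hne => ⟨hc x hx, by rw [dist_comm]; exact hc x hx⟩
      exact absurd (hc z this) (by simpa using hpos)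
  choose M hMZ hMc hM using h1
  refine ⟨⋃ n, M n, countable_iUnion hMc, fun z hz => ?_⟩
  rw [Metric.mem_closure_iff]
  intro ε hε
  obtain ⟨n, hn⟩ := exists_nat_one_div_lt hε
  obtain ⟨x, hx, hd⟩ := hM n z hz
  exact ⟨x, mem_iUnion.mpr ⟨n, hx⟩, by rw [dist_comm]; exact hd.trans hn⟩

/-- Disjoint supports. -/
theorem exists_disjoint_supports {X : Type u} {T : Type v} (Y : T → Set X)
    (hfin : ∀ x, {t | x ∈ Y t}.Finite) (Z : Set X)
    (hZ : ¬ (⋃ z ∈ Z, {t | z ∈ Y t}).Countable) :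
    ∃ (R : Set T) (z : W1 → X), (∀ i, z i ∈ Z) ∧ (∀ i, ({t | z i ∈ Y t} ∩ R).Nonempty) ∧
      ∀ i j, i ≠ j → Disjoint ({t | z i ∈ Y t} ∩ R) ({t | z j ∈ Y t} ∩ R) := by
  have claim : ∀ n : ℕ, ∀ (R : Set T) (Z : Set X), (∀ z ∈ Z, ({t | z ∈ Y t} ∩ R).ncard ≤ n) →
      ¬ (⋃ z ∈ Z, ({t | z ∈ Y t} ∩ R)).Countable →
      ∃ (R : Set T) (z : W1 → X), (∀ i, z i ∈ Z) ∧ (∀ i, ({t | z i ∈ Y t} ∩ R).Nonempty) ∧
      ∀ i j, i ≠ j → Disjoint ({t | z i ∈ Y t} ∩ R) ({t | z j ∈ Y t} ∩ R) := by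
    intro n
    induction n with
    | zero =>
      intro R Z h1 h2
      exfalso
      apply h2
      have : (⋃ z ∈ Z, ({t | z ∈ Y t} ∩ R)) = ∅ := by
        simp only [iUnion_eq_empty]
        intro z hz
        have := h1 z hz
        rw [Nat.le_zero] at this
        rwa [ncard_eq_zero ((hfin z).subset inter_subset_left)] at this
      rw [this]
      exact countable_empty
    | succ n ih =>
      intro R Z h1 h2
      obtain ⟨M, hMZ, hM1, hM2⟩ := exists_max_clique {z ∈ Z | ({t | z ∈ Y t} ∩ R).Nonempty}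
        (fun x y => Disjoint ({t | x ∈ Y t} ∩ R) ({t | y ∈ Y t} ∩ R))
      by_cases hM : M.Countable
      · set R0 : Set T := ⋃ z ∈ M, ({t | z ∈ Y t} ∩ R) with hR0
        have hR0c : R0.Countable := hM.biUnion fun z _ =>
          ((hfin z).subset inter_subset_left).countable
        refine ih (R \ R0) Z ?_ ?_
        · intro z hz
          by_cases hne : ({t | z ∈ Y t} ∩ R).Nonempty
          · obtain ⟨r, hr, hr0⟩ : ∃ r ∈ {t | z ∈ Y t} ∩ R, r ∈ R0 := by
              by_contra hc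
              push Not at hc
              have hzM : z ∈ M := by
                refine hM2 z ⟨hz, hne⟩ fun x hx _ => ?_
                have hd : Disjoint ({t | x ∈ Y t} ∩ R) ({t | z ∈ Y t} ∩ R) := by
                  rw [disjoint_left]
                  intro t ht ht'
                  exact hc t ht' (mem_biUnion hx ht)
                exact ⟨hd, hd.symm⟩
              obtain ⟨r, hr⟩ := hne
              exact hc r hr (mem_biUnion hzM hr)
            have hsub : {t | z ∈ Y t} ∩ (R \ R0) ⊆ ({t | z ∈ Y t} ∩ R) \ {r} := by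
              rintro t ⟨ht, htR, htR0⟩
              refine ⟨⟨ht, htR⟩, ?_⟩
              rintro rfl
              exact htR0 hr0
            have hf : ({t | z ∈ Y t} ∩ R).Finite := (hfin z).subset inter_subset_left
            have h3 := ncard_le_ncard hsub (hf.subset sdiff_subset)
            have h4 := ncard_sdiff_singleton_add_one hr hf
            have h5 := h1 z hz
            omega
          · rw [not_nonempty_iff_eq_empty] at hne
            have : {t | z ∈ Y t} ∩ (R \ R0) = ∅ := by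
              rw [eq_empty_iff_forall_notMem] at hne ⊢
              rintro t ⟨ht, htR, -⟩
              exact hne t ⟨ht, htR⟩
            rw [this]; simp
        · intro hc
          apply h2
          refine (hR0c.union hc).mono ?_
          intro t ht
          simp only [mem_iUnion] at ht
          obtain ⟨z, hz, ht1, ht2⟩ := ht
          by_cases htR0 : t ∈ R0
          · exact Or.inl htR0
          · exact Or.inr (mem_biUnion hz ⟨ht1, ht2, htR0⟩)
      · obtain ⟨z, hzinj, hzM⟩ := W1.exists_inj hM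
        exact ⟨R, z, fun i => (hMZ (hzM i)).1, fun i => (hMZ (hzM i)).2, fun i j hij =>
          hM1 _ (hzM i) _ (hzM j) (hzinj.ne hij)⟩
  have h1 : ∃ n : ℕ, ¬ (⋃ z ∈ {z ∈ Z | {t | z ∈ Y t}.ncard ≤ n}, ({t | z ∈ Y t} ∩ Set.univ)).Countable := by
    by_contra hc
    push Not at hc
    apply hZ
    refine (countable_iUnion hc).mono ?_
    intro t ht
    simp only [mem_iUnion] at ht ⊢
    obtain ⟨z, hz, ht⟩ := ht
    exact ⟨_, z, ⟨hz, le_rfl⟩, ht, trivial⟩
  obtain ⟨n, hn⟩ := h1
  obtain ⟨R, z, h2, h3, h4⟩ := claim n Set.univ _ (by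
    rintro z ⟨-, hz⟩
    simpa using hz) hn
  exact ⟨R, z, fun i => (h2 i).1, h3, h4⟩

/-- countable generation of the power set of `ω₁`. -/
theorem exists_generating {X : Type u} {T : Type v} [MetricSpace X] {L : W1 → Set (Set X)}
    {Y : T → Set X} (h : Lev L) (hY : PF L Y) {Z : Set X} (hZ : IsSeparable Z) (R : Set T)
    (z : W1 → X) (hz : ∀ i, z i ∈ Z) (hne : ∀ i, ({t | z i ∈ Y t} ∩ R).Nonempty)
    (hd : ∀ i j, i ≠ j → Disjoint ({t | z i ∈ Y t} ∩ R) ({t | z j ∈ Y t} ∩ R)) :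
    ∃ C : ℕ → Set W1, ∀ A : Set W1, MeasurableSpace.GenerateMeasurable (range C) A := by
  obtain ⟨c, hc, hZc⟩ := hZ
  have hcne : c.Nonempty := by
    rw [nonempty_iff_ne_empty]
    rintro rfl
    have := hZc (hz (Classical.arbitrary W1))
    simp at this
  obtain ⟨q, rfl⟩ := hc.exists_eq_range hcne
  let C : ℕ → Set W1 := fun n => {j | dist (z j) (q n.unpair.1) < 1 / ((n.unpair.2 : ℝ) + 1)}
  refine ⟨C, ?_⟩
  let _m : MeasurableSpace W1 := MeasurableSpace.generateFrom (range C)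
  have hC : ∀ n, MeasurableSet (C n) := fun n =>
    MeasurableSpace.measurableSet_generateFrom (mem_range_self n)
  have hopen : ∀ U : Set X, IsOpen U → MeasurableSet {j | z j ∈ U} := by
    intro U hU
    have : {j | z j ∈ U} = ⋃ n ∈ {n : ℕ | Metric.ball (q n.unpair.1) (1 / ((n.unpair.2 : ℝ) + 1)) ⊆ U},
        C n := by
      ext j
      simp only [mem_iUnion, mem_ofPred_eq, exists_prop, C]
      constructor
      · intro hj
        obtain ⟨ε, hε, hball⟩ := Metric.isOpen_iff.mp hU _ hj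
        obtain ⟨k, hk⟩ := exists_nat_one_div_lt (half_pos hε)
        obtain ⟨_, ⟨m, rfl⟩, hm⟩ := Metric.mem_closure_iff.mp (hZc (hz j))
          (1 / ((k : ℝ) + 1)) (by positivity)
        refine ⟨Nat.pair m k, ?_, ?_⟩
        · simp only [Nat.unpair_pair]
          intro y hy
          apply hball
          rw [Metric.mem_ball] at hy ⊢
          calc dist y (z j) ≤ dist y (q m) + dist (q m) (z j) := dist_triangle _ _ _
            _ < ε / 2 + ε / 2 := add_lt_add (hy.trans hk) (by rw [dist_comm]; exact hm.trans hk)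
            _ = ε := add_halves ε
        · simp only [Nat.unpair_pair]
          exact hm
      · rintro ⟨n, hn, hj⟩
        exact hn hj
    rw [this]
    exact MeasurableSet.biUnion (to_countable _) fun n _ => hC n
  have hL : ∀ i : W1, ∀ B ∈ L i, MeasurableSet {j | z j ∈ B} := by
    intro i
    induction i using WellFoundedLT.induction with
    | ind i ih =>
    intro B hB
    rcases h.step i B hB with hB | ⟨f, rfl, hf⟩
    · exact hopen B hB
    · have : {j | z j ∈ ⋃ n, f n} = ⋃ n, {j | z j ∈ (f n)ᶜ}ᶜ := by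
        ext j; simp
      rw [this]
      refine MeasurableSet.iUnion fun n => MeasurableSet.compl ?_
      obtain ⟨k, hk, hk'⟩ := hf n
      exact ih k hk _ hk'
  intro A
  obtain ⟨i, hi⟩ := hY.add (⋃ i ∈ A, ({t | z i ∈ Y t} ∩ R))
  have h1 := hL i _ hi
  have h2 : {j | z j ∈ un Y (⋃ i ∈ A, ({t | z i ∈ Y t} ∩ R))} = A := by
    ext j
    simp only [un, mem_iUnion, mem_ofPred_eq, exists_prop]
    constructor
    · rintro ⟨t, ⟨i, hiA, hti⟩, hjt⟩
      by_contra hjA
      have hij : i ≠ j := by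
        rintro rfl; exact hjA hiA
      exact disjoint_left.mp (hd i j hij) hti ⟨hjt, hti.2⟩
    · intro hj
      obtain ⟨t, ht⟩ := hne j
      exact ⟨t, ⟨j, hj, ht⟩, ht.1⟩
  rw [h2] at h1
  exact h1

end Pool.Agent.TH566.BC
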