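import Mathlib

/-!
# The first uncountable ordinal as a type
-/

set_option autoImplicit false

open Set Cardinal Ordinal

namespace Pool.Agent.TH566.BC

/-- The first uncountable ordinal as a type in `Type`. -/
abbrev W1 : Type := (ω₁ : Ordinal.{0}).ToType

/-- The countable ordinal attached to an element of `W1`. -/
noncomputable def W1.o (i : W1) : Ordinal.{0} := (ToType.toOrd i : Ordinal.{0})

theorem W1.o_lt (i : W1) : i.o < ω₁ := (ToType.toOrd i).2

theorem W1.exists_o (α : Ordinal.{0}) (h : α < ω₁) : ∃ i : W1, i.o = α := by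
  refine ⟨ToType.mk ⟨α, h⟩, ?_⟩
  simp [W1.o, ToType.toOrd]

theorem W1.o_lt_o {i j : W1} : i.o < j.o ↔ i < j := by
  unfold W1.o
  rw [Subtype.coe_lt_coe]
  exact OrderIso.lt_iff_lt _

theorem W1.o_le_o {i j : W1} : i.o ≤ j.o ↔ i ≤ j := by
  rw [← not_lt, W1.o_lt_o, not_lt]

theorem W1.mk : #W1 = ℵ₁ := by
  simp [W1, mk_toType]

theorem W1.countable_Iio (i : W1) : (Iio i).Countable := by
  have h : #(Iio i) < ℵ₁ := by
    have := mk_Iio_lt i (by simp)
    rwa [W1.mk] at this
  rw [← Cardinal.le_aleph0_iff_set_countable]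
  have h2 : (ℵ₁ : Cardinal.{0}) = Order.succ ℵ₀ := by simp
  rw [h2] at h
  exact Order.lt_succ_iff.mp h

theorem W1.countable_Iic (i : W1) : (Iic i).Countable := by
  rw [← Iio_insert]
  exact (W1.countable_Iio i).insert i

theorem W1.not_countable : ¬ Countable W1 := by
  intro h
  have := Cardinal.mk_le_aleph0_iff.mpr h
  rw [W1.mk] at this
  exact absurd this (not_le.mpr aleph0_lt_aleph_one)

instance : Uncountable W1 := ⟨W1.not_countable⟩

instance : Nonempty W1 := by
  have : Infinite W1 := inferInstance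
  exact this.nonempty

/-- countable subsets of `W1` are strictly bounded. -/
theorem W1.bdd {A : Set W1} (hA : A.Countable) : ∃ δ : W1, ∀ a ∈ A, a < δ := by
  by_contra hcon
  push Not at hcon
  have : (univ : Set W1) ⊆ ⋃ a ∈ A, Iic a := by
    intro δ _
    obtain ⟨a, ha, h⟩ := hcon δ
    exact mem_biUnion ha h
  have h2 : (univ : Set W1).Countable :=
    (hA.biUnion fun a _ => W1.countable_Iic a).mono this
  exact W1.not_countable (countable_univ_iff.mp h2)

/-- an uncountable set receives an injection from `W1`. -/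
theorem W1.exists_inj {T : Type*} {A : Set T} (hA : ¬ A.Countable) :
    ∃ f : W1 → T, Function.Injective f ∧ ∀ i, f i ∈ A := by
  have h1 : ℵ₁ ≤ #A := by
    have h2 : (ℵ₁ : Cardinal) = Order.succ ℵ₀ := by simp
    rw [h2, Order.succ_le_iff, ← not_le, Cardinal.le_aleph0_iff_set_countable]
    exact hA
  have h3 : Cardinal.lift.{_, 0} #W1 ≤ Cardinal.lift.{0, _} #A := by
    rw [W1.mk]; simpa using h1
  obtain ⟨g⟩ := Cardinal.lift_mk_le'.mp h3
  exact ⟨fun i => (g i : T), fun i j h => g.injective (Subtype.ext h), fun i => (g i).2⟩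

/-- there is an injection of `W1` into the Cantor space. -/
theorem W1.exists_code : ∃ e : W1 → (ℕ → Bool), Function.Injective e := by
  have h : #W1 ≤ #(ℕ → Bool) := by
    rw [W1.mk]
    simpa using aleph_one_le_continuum
  obtain ⟨g⟩ := Cardinal.le_def _ _ |>.mp h
  exact ⟨g, g.injective⟩

end Pool.Agent.TH566.BC
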